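import Pool.Agent.Lib.P4a177c.Defs
import Pool.Agent.Lib.P4a177o.CrvB
import Pool.Agent.Lib.P4a177t.LogInt

/-!
# The functions which occur in the regulator integral

The coordinates `x_1, …, x_m` run on the closed curve `pt ε`, the image of the curve `crv ε` of
`P4a177o` under `z ↦ z^2 / (z^2 - 1)`; so `x_j / (1 - x_j) = -z^2` and
`x_j (1 - x_j) = -1 / (z - 1/z)^2`. The coordinate `x_0` is a solution of
`x_0 (1 - x_0)^e = y^2 e^e / (e+1)^(e+1)`, where `y = yc ε θ` is the product of the numbers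
`(-i (z_j - 1/z_j) / 2)^(c_j)`, divided by the square root of `V = N / N_c`.
-/

set_option autoImplicit false

namespace P4a177c

open P4a177h P4a177o Function MeasureTheory
open scoped Real

noncomputable section

/-- the curve on which the coordinates `x_1, …, x_m` run -/
def pt (ε t : ℝ) : ℂ := crv ε t ^ 2 / (crv ε t ^ 2 - 1)

/-- `-i (z - 1 / z) / 2`, which is `sin t` for `z = exp (i t)` -/
def sn (ε t : ℝ) : ℂ := -(Complex.I * gg ε t) / 2

/-- the number `y` -/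
def yc {m : ℕ} (c : Fin m → ℕ) (V ε : ℝ) (θ : Fin m → ℝ) : ℂ :=
  (∏ j, sn ε (θ j) ^ c j) / ((√V : ℝ) : ℂ)

/-- the limit of `yc` for `ε → 0` -/
def y0 {m : ℕ} (c : Fin m → ℕ) (V : ℝ) (θ : Fin m → ℝ) : ℝ :=
  (∏ j, Real.sin (θ j) ^ c j) / √V

/-- `y` is not zero and `1 - y^2` is not on the ray from `0` in the direction `e^(3πi/4)` -/
def Good (y : ℂ) : Prop := y ≠ 0 ∧ (1 - y ^ 2) * (1 + Complex.I) ∈ Complex.slitPlane

/-- the square root of `1 - y^2` with the cut in the direction `e^(3πi/4)` -/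
def sq (y : ℂ) : ℂ := Complex.exp
  ((Complex.log ((1 - y ^ 2) * (1 + Complex.I)) - Complex.log (1 + Complex.I)) / 2)

/-- the value of `x_0` for the exponent `e = 1` -/
def rt1 (y : ℂ) : ℂ := (1 - sq y) / 2

/-- `B = w + i y`, with `w^2 + y^2 = 1` -/
def BB (y : ℂ) : ℂ := sq y + Complex.I * y

/-- `q = B^(2/3)` -/
def qq (y : ℂ) : ℂ := Complex.exp (2 / 3 * Complex.log (BB y))

/-- the value of `x_0` for the exponent `e = 2` -/
def rt2 (y : ℂ) : ℂ := (2 - qq y - (qq y)⁻¹) / 3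

/-- The critical value: `N_c = 4^(∑ c_j) (e+1)^(e+1) / e^e`. -/
def Nc {m : ℕ} (c : Fin m → ℕ) (e : ℕ) : ℝ :=
  4 ^ (∑ j, c j) * (e + 1) ^ (e + 1) / e ^ e

/-- The properties of the function `f` which gives `x_0 = f y`. -/
structure RootSpec (e : ℕ) (f : ℂ → ℂ) : Prop where
  /-- smoothness -/
  contDiffAt : ∀ y : ℂ, Good y → ContDiffAt ℝ 2 f y
  /-- the equation -/
  eqn : ∀ y : ℂ, Good y →
    f y * (1 - f y) ^ e = y ^ 2 * ((e : ℂ) ^ e / ((e : ℂ) + 1) ^ (e + 1))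
  /-- `1 - x_0` has a logarithm -/
  slit : ∀ y : ℂ, Good y → 1 - f y ∈ Complex.slitPlane
  /-- `1 - x_0` is not small -/
  norm : ∀ y : ℂ, Good y → 1 / 4 ≤ ‖1 - f y‖
  /-- the values at real numbers -/
  le : ∀ t : ℝ, t ≠ 0 → t ^ 2 ≠ 1 → ‖f t‖ ≤ ‖1 - f t‖
  /-- the values at small real numbers -/
  lt : ∀ t : ℝ, t ≠ 0 → t ^ 2 < 1 → ‖f t‖ < ‖1 - f t‖

/-- `log |x_0 / (1 - x_0)|` -/
def LU (f : ℂ → ℂ) (y : ℂ) : ℝ := Real.log ‖f y‖ - Real.log ‖1 - f y‖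

/-- the factor of the integrands which comes from the coordinates different from `x_0` and
`x_(k+1)` -/
def CC {m : ℕ} (ε : ℝ) (k : Fin m) (θ : Fin m → ℝ) : ℝ :=
  (∏ j with j < k, ((2 : ℂ) * tf ε (θ j)).re) * (∏ j with k < j, (2 : ℂ) * tf ε (θ j)).re

/-- the main term of the regulator -/
def RM {m : ℕ} (f : ℂ → ℂ) (c : Fin m → ℕ) (V ε : ℝ) : ℝ :=
  ∫ θ in box m, LU f (yc c V ε θ) * (∏ j, (2 : ℂ) * tf ε (θ j)).re

/-- the error terms of the regulator -/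
def RE {m : ℕ} (f : ℂ → ℂ) (c : Fin m → ℕ) (e : ℕ) (V ε : ℝ) (k : Fin m) : ℝ :=
  ∫ θ in box m, (4 * c k * (aa ε (θ k) * (lg ε (θ k)).re) +
    2 * (e + 1) * (da ε (θ k) * (Complex.log (1 - f (yc c V ε θ))).im)) * CC ε k θ

end

end P4a177c
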