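import Pool.Agent.Lib.P4a177c.Ana

/-!
# MODULE P4a177c.YcC: the function `yc` (est. 1 h; compare `Lib/P4a177o/CcO.lean`)

PROOF. `sn ε t = -(i gg ε t)/2`. `gg_continuous`, `CcOAux.gg_contDiff`, `CcOAux.gg_periodic` (of
`Lib/P4a177o/CcO.lean`; copy or import), `gg_ne_zero`, `le_norm_gg`, `norm_gg_le`, `tendsto_gg`
(`Lib/P4a177o/CrvA.lean`, `CrvB.lean`): the limit of `sn ε t` is `-(i * 2 sin t * i)/2 = sin t`.
`yc_sq`: `(sn)^2 = -gg^2/4`, `(√V)^2 = V`.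
`log_norm_yc`: `‖yc‖ = ∏ ‖sn ε (θ j)‖^(c_j) / √V`, `|sin t| ≤ ‖sn ε t‖ ≤ 3/2`, so
`|log ‖sn ε t‖| ≤ |log |sin t|| + log (3/2)`; `C = |log √V| + (∑ c_j) log (3/2)`.
-/

set_option autoImplicit false

namespace P4a177c

open P4a177h P4a177o Function MeasureTheory Filter Topology
open scoped Real

variable {m : ℕ} (c : Fin m → ℕ) (V : ℝ)

namespace YcCAux

theorem gg_contDiff (ε : ℝ) : ContDiff ℝ 2 (gg ε) := by
  unfold gg
  exact (crv_contDiff ε).sub ((crv_contDiff ε).inv (crv_ne_zero ε))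

theorem gg_periodic (ε t : ℝ) : gg ε (t + 2 * π) = gg ε t := by
  unfold gg
  rw [crv_periodic]

theorem norm_sn (ε t : ℝ) : ‖sn ε t‖ = ‖gg ε t‖ / 2 := by
  unfold sn
  rw [norm_div, norm_neg, norm_mul, Complex.norm_I, one_mul, Complex.norm_ofNat]

theorem sn_periodic (ε t : ℝ) : sn ε (t + 2 * π) = sn ε t := by
  unfold sn
  rw [gg_periodic]

theorem sn_sq (ε t : ℝ) : sn ε t ^ 2 = -(gg ε t) ^ 2 / 4 := by
  unfold sn
  linear_combination (gg ε t ^ 2 / 4) * Complex.I_sq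

theorem tendsto_sn (t : ℝ) : Tendsto (fun ε => sn ε t) (𝓝[>] 0) (𝓝 ((Real.sin t : ℝ) : ℂ)) := by
  have h1 := ((tendsto_const_nhds (x := Complex.I)).mul (tendsto_gg t)).neg.div_const (2 : ℂ)
  have h2 : -(Complex.I * (((2 * Real.sin t : ℝ) : ℂ) * Complex.I)) / 2 =
      ((Real.sin t : ℝ) : ℂ) := by
    push_cast
    linear_combination (-Complex.sin t) * Complex.I_sq
  rw [h2] at h1
  exact h1

theorem norm_yc (ε : ℝ) (θ : Fin m → ℝ) :
    ‖yc c V ε θ‖ = (∏ j, ‖sn ε (θ j)‖ ^ c j) / √V := by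
  unfold yc
  rw [norm_div, norm_prod, Complex.norm_real, Real.norm_eq_abs, abs_of_nonneg (Real.sqrt_nonneg V)]
  congr 1
  exact Finset.prod_congr rfl fun j _ => norm_pow _ _

theorem abs_y0 (θ : Fin m → ℝ) :
    |y0 c V θ| = (∏ j, |Real.sin (θ j)| ^ c j) / √V := by
  unfold y0
  rw [abs_div, Finset.abs_prod, abs_of_nonneg (Real.sqrt_nonneg V)]
  congr 1
  exact Finset.prod_congr rfl fun j _ => abs_pow _ _

/-- the logarithm of a number between `|sin t|` and `3 / 2` -/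
theorem abs_log_le {x s : ℝ} (hs : 0 < s) (h1 : s ≤ x) (h2 : x ≤ 3 / 2) :
    |Real.log x| ≤ |Real.log s| + Real.log (3 / 2) := by
  have h3 : 0 ≤ Real.log (3 / 2) := Real.log_nonneg (by norm_num)
  have h4 := Real.log_le_log hs h1
  have h5 := Real.log_le_log (hs.trans_le h1) h2
  have h6 := neg_abs_le (Real.log s)
  have h7 := abs_nonneg (Real.log s)
  rw [abs_le]
  constructor <;> linarith

/-- the logarithm of a product -/
theorem abs_log_prod_le {V : ℝ} (hV : 0 < V) (x s : Fin m → ℝ) (hs : ∀ j, 0 < s j)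
    (h1 : ∀ j, s j ≤ x j) (h2 : ∀ j, x j ≤ 3 / 2) :
    |Real.log ((∏ j, x j ^ c j) / √V)| ≤
      (|Real.log √V| + (∑ j, (c j : ℝ)) * Real.log (3 / 2)) + ∑ j, c j * |Real.log (s j)| := by
  have hx : ∀ j, 0 < x j := fun j => (hs j).trans_le (h1 j)
  have hp : (∏ j, x j ^ c j) ≠ 0 :=
    (Finset.prod_pos fun j _ => pow_pos (hx j) _).ne'
  have hV' : √V ≠ 0 := (Real.sqrt_pos.2 hV).ne'
  rw [Real.log_div hp hV', Real.log_prod (fun j _ => (pow_pos (hx j) _).ne')]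
  have h3 : |∑ j, Real.log (x j ^ c j)| ≤
      ∑ j, ((c j : ℝ) * |Real.log (s j)| + c j * Real.log (3 / 2)) := by
    refine (Finset.abs_sum_le_sum_abs _ _).trans (Finset.sum_le_sum fun j _ => ?_)
    rw [Real.log_pow, abs_mul, Nat.abs_cast, ← mul_add]
    exact mul_le_mul_of_nonneg_left (abs_log_le (hs j) (h1 j) (h2 j)) (Nat.cast_nonneg _)
  rw [Finset.sum_add_distrib, ← Finset.sum_mul] at h3
  have h4 := abs_sub (∑ j, Real.log (x j ^ c j)) (Real.log √V)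
  linarith

end YcCAux

open YcCAux

theorem sn_contDiff (ε : ℝ) : ContDiff ℝ 2 (sn ε) := by
  unfold sn
  exact ((contDiff_const.mul (gg_contDiff ε)).neg).div_const 2

theorem sn_ne_zero {ε : ℝ} (h0 : 0 < ε) (t : ℝ) : sn ε t ≠ 0 := by
  rw [← norm_pos_iff, norm_sn]
  have := norm_pos_iff.2 (gg_ne_zero h0 t)
  linarith

theorem abs_sin_le_norm_sn (ε t : ℝ) : |Real.sin t| ≤ ‖sn ε t‖ := by
  rw [norm_sn]
  have := le_norm_gg ε t
  linarith

theorem norm_sn_le {ε : ℝ} (h0 : 0 < ε) (h1 : ε ≤ 1 / 10) (t : ℝ) : ‖sn ε t‖ ≤ 3 / 2 := by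
  rw [norm_sn]
  have := norm_gg_le h0 h1 t
  linarith

theorem yc_contDiff (ε : ℝ) : ContDiff ℝ 2 fun θ : Fin m → ℝ => yc c V ε θ := by
  unfold yc
  exact (contDiff_prod fun j _ =>
    ((sn_contDiff ε).comp (contDiff_apply ℝ ℝ j)).pow (c j)).div_const _

theorem yc_continuous (ε : ℝ) : Continuous fun θ : Fin m → ℝ => yc c V ε θ :=
  (yc_contDiff c V ε).continuous

theorem yc_periodic (ε : ℝ) (θ : Fin m → ℝ) (l : Fin m) :
    yc c V ε (update θ l (θ l + 2 * π)) = yc c V ε θ := by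
  unfold yc
  congr 1
  refine Finset.prod_congr rfl fun j _ => ?_
  by_cases hj : j = l
  · subst hj
    rw [update_self, sn_periodic]
  · rw [update_of_ne hj]

theorem yc_ne_zero {V : ℝ} (hV : 0 < V) {ε : ℝ} (h0 : 0 < ε) (θ : Fin m → ℝ) :
    yc c V ε θ ≠ 0 := by
  unfold yc
  refine div_ne_zero (Finset.prod_ne_zero_iff.2 fun j _ => pow_ne_zero _ (sn_ne_zero h0 _)) ?_
  exact Complex.ofReal_ne_zero.2 (Real.sqrt_pos.2 hV).ne'

theorem yc_sq {V : ℝ} (hV : 0 < V) (ε : ℝ) (θ : Fin m → ℝ) :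
    yc c V ε θ ^ 2 = (∏ j, (-(gg ε (θ j)) ^ 2 / 4) ^ c j) / (V : ℂ) := by
  unfold yc
  rw [div_pow, ← Complex.ofReal_pow, Real.sq_sqrt hV.le, ← Finset.prod_pow]
  congr 1
  refine Finset.prod_congr rfl fun j _ => ?_
  rw [← pow_mul, mul_comm (c j) 2, pow_mul, sn_sq]

theorem tendsto_yc (θ : Fin m → ℝ) :
    Tendsto (fun ε => yc c V ε θ) (𝓝[>] 0) (𝓝 ((y0 c V θ : ℝ) : ℂ)) := by
  unfold yc y0
  rw [Complex.ofReal_div, Complex.ofReal_prod]
  simp_rw [Complex.ofReal_pow]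
  exact (tendsto_finsetProd _ fun j _ => (tendsto_sn (θ j)).pow (c j)).div_const _

theorem norm_yc_le {V : ℝ} (hV : 0 < V) : ∃ M : ℝ, 0 < M ∧ (∀ ε : ℝ, 0 < ε → ε ≤ 1 / 10 →
    ∀ θ : Fin m → ℝ, ‖yc c V ε θ‖ ≤ M) ∧ ∀ θ : Fin m → ℝ, |y0 c V θ| ≤ M := by
  have hV' : 0 < √V := Real.sqrt_pos.2 hV
  refine ⟨(∏ j, (3 / 2 : ℝ) ^ c j) / √V, div_pos (Finset.prod_pos fun j _ => by positivity) hV',
    fun ε h0 h1 θ => ?_, fun θ => ?_⟩
  · rw [norm_yc]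
    refine div_le_div_of_nonneg_right (Finset.prod_le_prod (fun j _ => by positivity)
      fun j _ => ?_) hV'.le
    exact pow_le_pow_left₀ (norm_nonneg _) (norm_sn_le h0 h1 _) _
  · rw [abs_y0]
    refine div_le_div_of_nonneg_right (Finset.prod_le_prod (fun j _ => by positivity)
      fun j _ => ?_) hV'.le
    exact pow_le_pow_left₀ (abs_nonneg _)
      ((Real.abs_sin_le_one _).trans (by norm_num)) _

theorem log_norm_yc {V : ℝ} (hV : 0 < V) : ∃ C : ℝ, 0 ≤ C ∧ (∀ ε : ℝ, 0 < ε → ε ≤ 1 / 10 →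
    ∀ θ : Fin m → ℝ, (∀ j, Real.sin (θ j) ≠ 0) →
      |Real.log ‖yc c V ε θ‖| ≤ C + ∑ j, c j * |Real.log (|Real.sin (θ j)|)|) ∧
    ∀ θ : Fin m → ℝ, (∀ j, Real.sin (θ j) ≠ 0) →
      |Real.log (|y0 c V θ|)| ≤ C + ∑ j, c j * |Real.log (|Real.sin (θ j)|)| := by
  have h3 : 0 ≤ Real.log (3 / 2) := Real.log_nonneg (by norm_num)
  refine ⟨|Real.log √V| + (∑ j, (c j : ℝ)) * Real.log (3 / 2), by positivity,
    fun ε h0 h1 θ hθ => ?_, fun θ hθ => ?_⟩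
  · rw [norm_yc]
    exact abs_log_prod_le c hV (fun j => ‖sn ε (θ j)‖) (fun j => |Real.sin (θ j)|)
      (fun j => abs_pos.2 (hθ j)) (fun j => abs_sin_le_norm_sn ε (θ j))
      fun j => norm_sn_le h0 h1 (θ j)
  · rw [abs_y0]
    exact abs_log_prod_le c hV (fun j => |Real.sin (θ j)|) (fun j => |Real.sin (θ j)|)
      (fun j => abs_pos.2 (hθ j)) (fun j => le_rfl)
      fun j => (Real.abs_sin_le_one _).trans (by norm_num)

end P4a177c
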