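import Pool.Agent.Lib.P4a177c.SqC
import Pool.Agent.Lib.P4a177c.YcC

/-!
# MODULE P4a177c.BdC: the bound for `log |x_0 / (1 - x_0)|` (est. 1 h)

PROOF. `f_ne_zero`: from `RootSpec.eqn`, `y ≠ 0`, `e^e/(e+1)^(e+1) ≠ 0`.
`abs_LU_le`: `‖f‖ ‖1 - f‖^e = ‖y‖^2 κ`, `κ = e^e/(e+1)^(e+1) ≤ 1`, so
`log ‖f‖ = 2 log ‖y‖ + log κ - e log ‖1 - f‖`, `LU = 2 log ‖y‖ + log κ - (e + 1) log ‖1 - f‖`. And
`1/4 ≤ ‖1 - f‖ ≤ 2 + M^2`: if `‖1 - f‖ ≥ 2` then `‖f‖ ≥ 1` and `‖1 - f‖ ≤ ‖1 - f‖^e ≤ ‖y‖^2 κ ≤ M^2`. So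
`C = |log κ| + (e + 1) (log 4 + log (2 + M^2))`.
`exists_dom`: combine with `norm_yc_le`, `log_norm_yc`; `integrable_dom`: the function
`C + C' ∑ |log |sin (θ j)||` is integrable on the box (`P4a177t.LogIntAux.integrable_coord`, `.norm`/`.abs`,
`integrable_finset_sum`, constants on a set of finite measure).
-/

set_option autoImplicit false

namespace P4a177c

open P4a177h P4a177o Function MeasureTheory
open scoped Real

namespace BdCAux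

theorem kap_pos {e : ℕ} (he : 1 ≤ e) : (0 : ℝ) < (e : ℝ) ^ e / ((e : ℝ) + 1) ^ (e + 1) := by
  have h : (0 : ℝ) < e := by exact_mod_cast he
  positivity

theorem kap_le {e : ℕ} : (e : ℝ) ^ e / ((e : ℝ) + 1) ^ (e + 1) ≤ 1 := by
  have h0 : (0 : ℝ) ≤ e := Nat.cast_nonneg e
  rw [div_le_one (by positivity)]
  calc (e : ℝ) ^ e ≤ ((e : ℝ) + 1) ^ e := pow_le_pow_left₀ h0 (by linarith) e
    _ ≤ ((e : ℝ) + 1) ^ (e + 1) := pow_le_pow_right₀ (by linarith) (Nat.le_succ e)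

theorem norm_kap (e : ℕ) : ‖((e : ℂ) ^ e / ((e : ℂ) + 1) ^ (e + 1))‖ =
    (e : ℝ) ^ e / ((e : ℝ) + 1) ^ (e + 1) := by
  have h1 : ((e : ℂ) ^ e / ((e : ℂ) + 1) ^ (e + 1)) =
      (((e : ℝ) ^ e / ((e : ℝ) + 1) ^ (e + 1) : ℝ) : ℂ) := by
    push_cast
    ring
  rw [h1, Complex.norm_real, Real.norm_eq_abs, abs_of_nonneg (by positivity)]

theorem norm_eqn {e : ℕ} {f : ℂ → ℂ} (hf : RootSpec e f) {y : ℂ} (h : Good y) :
    ‖f y‖ * ‖1 - f y‖ ^ e = ‖y‖ ^ 2 * ((e : ℝ) ^ e / ((e : ℝ) + 1) ^ (e + 1)) := by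
  have h1 := congrArg norm (hf.eqn y h)
  rw [norm_mul, norm_pow, norm_mul, norm_pow, norm_kap] at h1
  exact h1

end BdCAux

theorem f_ne_zero {e : ℕ} (he : 1 ≤ e) {f : ℂ → ℂ} (hf : RootSpec e f) {y : ℂ} (h : Good y) :
    f y ≠ 0 := by
  intro h0
  have h1 := BdCAux.norm_eqn hf h
  rw [h0, norm_zero, zero_mul] at h1
  have h2 : 0 < ‖y‖ := norm_pos_iff.2 h.1
  have h3 := BdCAux.kap_pos he
  have h4 : 0 < ‖y‖ ^ 2 * ((e : ℝ) ^ e / ((e : ℝ) + 1) ^ (e + 1)) := by positivity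
  linarith

theorem abs_LU_le {e : ℕ} (he : 1 ≤ e) {f : ℂ → ℂ} (hf : RootSpec e f) (M : ℝ) (hM : 0 < M) :
    ∃ C : ℝ, 0 ≤ C ∧ ∀ y : ℂ, Good y → ‖y‖ ≤ M → |LU f y| ≤ C + 2 * |Real.log ‖y‖| := by
  have hκ := BdCAux.kap_pos he
  have hκ1 := BdCAux.kap_le (e := e)
  set κ : ℝ := (e : ℝ) ^ e / ((e : ℝ) + 1) ^ (e + 1) with hκd
  have hl4 : 0 ≤ Real.log 4 := Real.log_nonneg (by norm_num)
  have hlM : 0 ≤ Real.log (2 + M ^ 2) := Real.log_nonneg (by nlinarith [sq_nonneg M])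
  refine ⟨|Real.log κ| + (e + 1) * (Real.log 4 + Real.log (2 + M ^ 2)), by positivity, ?_⟩
  intro y h hy
  have hyp : 0 < ‖y‖ := norm_pos_iff.2 h.1
  have hfp : 0 < ‖f y‖ := norm_pos_iff.2 (f_ne_zero he hf h)
  have hg4 := hf.norm y h
  have hgp : 0 < ‖1 - f y‖ := by linarith
  have hE : ‖f y‖ * ‖1 - f y‖ ^ e = ‖y‖ ^ 2 * κ := BdCAux.norm_eqn hf h
  have hlog : Real.log ‖f y‖ + e * Real.log ‖1 - f y‖ = 2 * Real.log ‖y‖ + Real.log κ := by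
    have h1 := congrArg Real.log hE
    rw [Real.log_mul hfp.ne' (by positivity), Real.log_mul (by positivity) hκ.ne', Real.log_pow,
      Real.log_pow] at h1
    exact_mod_cast h1
  have hup : ‖1 - f y‖ ≤ 2 + M ^ 2 := by
    by_contra hcon
    push Not at hcon
    have h2 : 2 ≤ ‖1 - f y‖ := by nlinarith [sq_nonneg M]
    have h3 : 1 ≤ ‖f y‖ := by
      have h4 : ‖1 - f y‖ ≤ ‖(1 : ℂ)‖ + ‖f y‖ := norm_sub_le _ _
      rw [norm_one] at h4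
      linarith
    have h5 : ‖1 - f y‖ ≤ ‖1 - f y‖ ^ e := le_self_pow₀ (by linarith) (by omega)
    have h6 : ‖1 - f y‖ ^ e ≤ ‖f y‖ * ‖1 - f y‖ ^ e :=
      le_mul_of_one_le_left (by positivity) h3
    have h7 : ‖y‖ ^ 2 * κ ≤ M ^ 2 := by
      have h8 : ‖y‖ ^ 2 ≤ M ^ 2 := pow_le_pow_left₀ hyp.le hy 2
      calc ‖y‖ ^ 2 * κ ≤ ‖y‖ ^ 2 * 1 := mul_le_mul_of_nonneg_left hκ1 (by positivity)
        _ ≤ M ^ 2 := by rw [mul_one]; exact h8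
    linarith
  have hg : |Real.log ‖1 - f y‖| ≤ Real.log 4 + Real.log (2 + M ^ 2) := by
    rw [abs_le]
    constructor
    · have h1 : Real.log (1 / 4) ≤ Real.log ‖1 - f y‖ := Real.log_le_log (by norm_num) hg4
      rw [one_div, Real.log_inv] at h1
      linarith
    · have h1 := Real.log_le_log hgp hup
      linarith
  have hLU : LU f y = 2 * Real.log ‖y‖ + Real.log κ - (e + 1) * Real.log ‖1 - f y‖ := by
    unfold LU
    linarith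
  rw [hLU]
  have h1 : |(e + 1) * Real.log ‖1 - f y‖| ≤ (e + 1) * (Real.log 4 + Real.log (2 + M ^ 2)) := by
    rw [abs_mul, abs_of_nonneg (by positivity : (0 : ℝ) ≤ (e : ℝ) + 1)]
    exact mul_le_mul_of_nonneg_left hg (by positivity)
  calc |2 * Real.log ‖y‖ + Real.log κ - (e + 1) * Real.log ‖1 - f y‖|
      ≤ |2 * Real.log ‖y‖ + Real.log κ| + |(e + 1) * Real.log ‖1 - f y‖| := abs_sub _ _
    _ ≤ |2 * Real.log ‖y‖| + |Real.log κ| + |(e + 1) * Real.log ‖1 - f y‖| := by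
        gcongr
        exact abs_add_le _ _
    _ ≤ |Real.log κ| + (e + 1) * (Real.log 4 + Real.log (2 + M ^ 2)) + 2 * |Real.log ‖y‖| := by
        rw [abs_mul 2, abs_of_pos (by norm_num : (0 : ℝ) < 2)]
        linarith

theorem exists_dom {m : ℕ} (c : Fin m → ℕ) {V : ℝ} (hV : 0 < V) {e : ℕ} (he : 1 ≤ e)
    {f : ℂ → ℂ} (hf : RootSpec e f) :
    ∃ D : (Fin m → ℝ) → ℝ, IntegrableOn D (box m) ∧
      (∀ ε : ℝ, 0 < ε → ε ≤ 1 / 10 → ∀ θ : Fin m → ℝ, (∀ j, Real.sin (θ j) ≠ 0) →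
        Good (yc c V ε θ) → |LU f (yc c V ε θ)| ≤ D θ) ∧
      ∀ θ : Fin m → ℝ, (∀ j, Real.sin (θ j) ≠ 0) → Good ((y0 c V θ : ℝ) : ℂ) →
        |LU f ((y0 c V θ : ℝ) : ℂ)| ≤ D θ := by
  obtain ⟨M, hM, hM1, hM2⟩ := norm_yc_le c hV
  obtain ⟨C, hC, hC1⟩ := abs_LU_le he hf M hM
  obtain ⟨C', hC', hC1', hC2'⟩ := log_norm_yc c hV
  have hfin : volume (box m) ≠ ⊤ := by
    unfold box
    exact isCompact_Icc.measure_lt_top.ne
  refine ⟨fun θ => (C + 2 * C') + 2 * ∑ j, c j * |Real.log (|Real.sin (θ j)|)|, ?_, ?_, ?_⟩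
  · refine Integrable.add (integrableOn_const hfin) (Integrable.const_mul ?_ 2)
    exact integrable_finsetSum _ fun j _ =>
      ((P4a177t.LogIntAux.integrable_coord m j).abs.const_mul (c j : ℝ))
  · intro ε h0 h1 θ hθ hg
    have h2 := hC1 _ hg (hM1 ε h0 h1 θ)
    have h3 := hC1' ε h0 h1 θ hθ
    linarith
  · intro θ hθ hg
    have h4 : ‖((y0 c V θ : ℝ) : ℂ)‖ = |y0 c V θ| := by
      rw [Complex.norm_real, Real.norm_eq_abs]
    have h2 := hC1 _ hg (by rw [h4]; exact hM2 θ)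
    rw [h4] at h2
    have h3 := hC2' θ hθ
    linarith

end P4a177c
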