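import Pool.Agent.Lib.P4a177s.Terms

/-!
# The hypersurfaces `N * x_0 * (1 - x_0)^e * ∏ (x_j * (1 - x_j))^(c_j) = 1`
-/

set_option autoImplicit false

namespace P4a177c

open P4a177h

noncomputable section

variable {m : ℕ}

/-- The expression `N * y_0 * (1 - y_0)^e * ∏_j (y_j * (1 - y_j))^(c_j)`. -/
def expr {B : Type*} [CommRing B] (c : Fin m → ℕ) (e N : ℕ) (y : Fin (m + 1) → B) : B :=
  (N : B) * (y 0 * (1 - y 0) ^ e * ∏ j : Fin m, (y j.succ * (1 - y j.succ)) ^ c j)

/-- The polynomial `N * x_0 * (1 - x_0)^e * ∏_j (x_j * (1 - x_j))^(c_j) - 1` in the `m + 1`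
variables `x_0, x_1, …, x_m`. -/
def eqn (c : Fin m → ℕ) (e N : ℕ) : MvPolynomial (Fin (m + 1)) ℚ :=
  expr c e N MvPolynomial.X - 1

/-- The coordinate ring over `ℚ` of the affine hypersurface
`X : N * x_0 * (1 - x_0)^e * ∏_j (x_j * (1 - x_j))^(c_j) = 1`. -/
abbrev CoordRing (c : Fin m → ℕ) (e N : ℕ) : Type :=
  MvPolynomial (Fin (m + 1)) ℚ ⧸ Ideal.span {eqn c e N}

/-- The hypersurface `X` is irreducible over the complex numbers. -/
def GeomIrreducible (c : Fin m → ℕ) (e N : ℕ) : Prop :=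
  Irreducible (MvPolynomial.map (algebraMap ℚ ℂ) (eqn c e N))

/-- The affine hypersurface `X` is smooth: at none of its complex points all the partial derivatives
of the equation vanish. -/
def Smooth (c : Fin m → ℕ) (e N : ℕ) : Prop :=
  ∀ y : Fin (m + 1) → ℂ, MvPolynomial.aeval y (eqn c e N) = 0 →
    ∃ j, MvPolynomial.aeval y (MvPolynomial.pderiv j (eqn c e N)) ≠ 0

/-- `y` satisfies the equation of the hypersurface. -/
def On {B : Type*} [CommRing B] (c : Fin m → ℕ) (e N : ℕ) (y : Fin (m + 1) → B) : Prop :=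
  expr c e N y = 1

/-- The coordinate functions on the hypersurface. -/
def coord (c : Fin m → ℕ) (e N : ℕ) (i : Fin (m + 1)) : CoordRing c e N :=
  Ideal.Quotient.mk _ (MvPolynomial.X i)

variable {c : Fin m → ℕ} {e N : ℕ}

theorem map_expr {B B' : Type*} [CommRing B] [CommRing B'] (f : B →+* B')
    (y : Fin (m + 1) → B) : f (expr c e N y) = expr c e N fun i => f (y i) := by
  unfold expr
  simp only [map_mul, map_natCast, map_pow, map_sub, map_one, map_prod]

theorem On.map {B B' : Type*} [CommRing B] [CommRing B'] (f : B →+* B') {y : Fin (m + 1) → B}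
    (h : On c e N y) : On c e N fun i => f (y i) := by
  unfold On at h ⊢
  rw [← map_expr f, h, map_one]

theorem aeval_eqn {B : Type*} [CommRing B] [Algebra ℚ B] (y : Fin (m + 1) → B) :
    MvPolynomial.aeval y (eqn c e N) = expr c e N y - 1 := by
  have h := map_expr (c := c) (e := e) (N := N)
    (MvPolynomial.aeval y : MvPolynomial (Fin (m + 1)) ℚ →ₐ[ℚ] B).toRingHom MvPolynomial.X
  unfold eqn
  rw [map_sub, map_one]
  congr 1
  simpa using h

theorem aeval_eqn_eq_zero {B : Type*} [CommRing B] [Algebra ℚ B] {y : Fin (m + 1) → B} :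
    MvPolynomial.aeval y (eqn c e N) = 0 ↔ On c e N y := by
  rw [aeval_eqn, sub_eq_zero]
  rfl

theorem coord_on (c : Fin m → ℕ) (e N : ℕ) : On c e N (coord c e N) := by
  have h := map_expr (c := c) (e := e) (N := N)
    (Ideal.Quotient.mk (Ideal.span {eqn c e N})) MvPolynomial.X
  have h2 : Ideal.Quotient.mk (Ideal.span {eqn c e N}) (eqn c e N) = 0 :=
    Ideal.Quotient.eq_zero_iff_mem.2 (Ideal.subset_span (Set.mem_singleton _))
  have h4 : eqn c e N = expr c e N MvPolynomial.X - 1 := rfl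
  have h3 : Ideal.Quotient.mk (Ideal.span {eqn c e N}) (eqn c e N) =
      Ideal.Quotient.mk (Ideal.span {eqn c e N}) (expr c e N MvPolynomial.X) - 1 :=
    (congrArg (Ideal.Quotient.mk (Ideal.span {eqn c e N})) h4).trans
      (by rw [map_sub, map_one])
  rw [h3, sub_eq_zero] at h2
  exact h.symm.trans h2

/-- The ring homomorphism of the coordinate ring given by a point. -/
def lift {B : Type*} [CommRing B] [Algebra ℚ B] (y : Fin (m + 1) → B)
    (h : On c e N y) : CoordRing c e N →+* B :=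
  Ideal.Quotient.lift (Ideal.span {eqn c e N})
    (MvPolynomial.aeval y : MvPolynomial (Fin (m + 1)) ℚ →ₐ[ℚ] B).toRingHom (by
      intro a ha
      obtain ⟨b, rfl⟩ := Ideal.mem_span_singleton'.1 ha
      show (MvPolynomial.aeval y : MvPolynomial (Fin (m + 1)) ℚ →ₐ[ℚ] B) (b * eqn c e N) = 0
      rw [map_mul, aeval_eqn_eq_zero.2 h, mul_zero])

theorem lift_mk {B : Type*} [CommRing B] [Algebra ℚ B] (y : Fin (m + 1) → B)
    (h : On c e N y) (p : MvPolynomial (Fin (m + 1)) ℚ) :
    lift y h (Ideal.Quotient.mk _ p) = MvPolynomial.aeval y p := rfl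

theorem lift_coord {B : Type*} [CommRing B] [Algebra ℚ B] (y : Fin (m + 1) → B)
    (h : On c e N y) (i : Fin (m + 1)) : lift y h (coord c e N i) = y i := by
  unfold coord
  rw [lift_mk, MvPolynomial.aeval_X]

/-! ### The units -/

theorem isUnit_factor {B : Type*} [CommRing B] {y : Fin (m + 1) → B} (h : On c e N y) :
    IsUnit (y 0 * (1 - y 0) ^ e * ∏ j : Fin m, (y j.succ * (1 - y j.succ)) ^ c j) := by
  refine IsUnit.of_mul_eq_one (N : B) ?_
  rw [mul_comm]
  exact h

/-- The coordinate `y_i` of a point of the hypersurface is a unit. -/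
theorem isUnit_y {B : Type*} [CommRing B] {y : Fin (m + 1) → B} (hc : ∀ j, 1 ≤ c j)
    (h : On c e N y) (i : Fin (m + 1)) : IsUnit (y i) := by
  have h1 := isUnit_factor h
  refine Fin.cases ?_ (fun j => ?_) i
  · exact isUnit_of_mul_isUnit_left (isUnit_of_mul_isUnit_left h1)
  · have h2 := isUnit_of_mul_isUnit_right h1
    have h3 : IsUnit ((y j.succ * (1 - y j.succ)) ^ c j) :=
      isUnit_of_dvd_unit (Finset.dvd_prod_of_mem
        (fun j : Fin m => (y j.succ * (1 - y j.succ)) ^ c j) (Finset.mem_univ j)) h2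
    have h4 := (isUnit_pow_iff (by have := hc j; omega)).1 h3
    exact isUnit_of_mul_isUnit_left h4

/-- The function `1 - y_i` is a unit. -/
theorem isUnit_one_sub {B : Type*} [CommRing B] {y : Fin (m + 1) → B} (hc : ∀ j, 1 ≤ c j)
    (he : 1 ≤ e) (h : On c e N y) (i : Fin (m + 1)) : IsUnit (1 - y i) := by
  have h1 := isUnit_factor h
  refine Fin.cases ?_ (fun j => ?_) i
  · have h2 := isUnit_of_mul_isUnit_right (isUnit_of_mul_isUnit_left h1)
    exact (isUnit_pow_iff (by omega)).1 h2
  · have h2 := isUnit_of_mul_isUnit_right h1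
    have h3 : IsUnit ((y j.succ * (1 - y j.succ)) ^ c j) :=
      isUnit_of_dvd_unit (Finset.dvd_prod_of_mem
        (fun j : Fin m => (y j.succ * (1 - y j.succ)) ^ c j) (Finset.mem_univ j)) h2
    have h4 := (isUnit_pow_iff (by have := hc j; omega)).1 h3
    exact isUnit_of_mul_isUnit_right h4

variable (N) in
/-- The coordinate `x_i` as a unit of the coordinate ring. -/
def xu (hc : ∀ j, 1 ≤ c j) (e : ℕ) (i : Fin (m + 1)) : (CoordRing c e N)ˣ :=
  (isUnit_y hc (coord_on c e N) i).unit

variable (N) in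
/-- The unit `1 - x_i` of the coordinate ring. -/
def vu (hc : ∀ j, 1 ≤ c j) (he : 1 ≤ e) (i : Fin (m + 1)) : (CoordRing c e N)ˣ :=
  (isUnit_one_sub hc he (coord_on c e N) i).unit

variable (N) in
/-- The unit `u_i = x_i / (1 - x_i)` of the coordinate ring. -/
def uu (hc : ∀ j, 1 ≤ c j) (he : 1 ≤ e) (i : Fin (m + 1)) : (CoordRing c e N)ˣ :=
  xu N hc e i / vu N hc he i

theorem xu_val (hc : ∀ j, 1 ≤ c j) (i : Fin (m + 1)) :
    (xu N hc e i : CoordRing c e N) = coord c e N i := IsUnit.unit_spec _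

theorem vu_val (hc : ∀ j, 1 ≤ c j) (he : 1 ≤ e) (i : Fin (m + 1)) :
    (vu N hc he i : CoordRing c e N) = 1 - coord c e N i := IsUnit.unit_spec _

theorem uu_mul (hc : ∀ j, 1 ≤ c j) (he : 1 ≤ e) (i : Fin (m + 1)) :
    (uu N hc he i : CoordRing c e N) * (1 - coord c e N i) = coord c e N i := by
  have h1 : uu N hc he i * vu N hc he i = xu N hc e i := by
    unfold uu
    rw [div_mul_cancel]
  have h2 := congrArg (Units.val : (CoordRing c e N)ˣ → CoordRing c e N) h1
  rw [Units.val_mul, vu_val, xu_val] at h2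
  exact h2

/-- The value of `u_i` under a homomorphism to a field. -/
theorem map_uu {K : Type*} [Field K] (φ : CoordRing c e N →+* K) (hc : ∀ j, 1 ≤ c j)
    (he : 1 ≤ e) (i : Fin (m + 1)) :
    φ (uu N hc he i : CoordRing c e N) = φ (coord c e N i) / (1 - φ (coord c e N i)) := by
  have h0 : (1 : K) - φ (coord c e N i) ≠ 0 := by
    have h1 := ((isUnit_one_sub hc he (coord_on c e N) i).map φ).ne_zero
    rwa [map_sub, map_one] at h1
  rw [eq_div_iff h0]
  have h2 := congrArg φ (uu_mul (N := N) hc he i)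
  rw [map_mul, map_sub, map_one] at h2
  exact h2

/-- The product formula, as an identity of units: `N * x_0 * (1 - x_0)^e * ∏ (x_j (1 - x_j))^(c_j)`
is `1`, in a form without `N`. -/
theorem val_prod (hc : ∀ j, 1 ≤ c j) (he : 1 ≤ e) :
    (N : CoordRing c e N) * ((xu N hc e 0 * vu N hc he 0 ^ e *
      ∏ j : Fin m, (xu N hc e j.succ * vu N hc he j.succ) ^ c j : (CoordRing c e N)ˣ) :
        CoordRing c e N) = 1 := by
  have h := coord_on c e N
  unfold On expr at h
  rw [← h]
  simp only [Units.val_mul, Units.val_pow_eq_pow_val, Units.coe_prod, xu_val, vu_val]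

end

end P4a177c
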