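import Pool.Agent.Lib.P4a177c.Ana
import Pool.Agent.Lib.P4a177c.YcC
import Pool.Agent.Lib.P4a177o.GoodO

/-!
# MODULE P4a177c.GoodC: the square root is defined on the whole torus (est. 1.2 h; adapt
# `Lib/P4a177o/GoodO.lean`)

PROOF. `yc ≠ 0` (`yc_ne_zero`). `yc^2 = Q / V`, `Q = ∏ p_j^(c_j)`, `p_j = -gg (θ_j)^2 / 4` (`yc_sq`). Suppose
that `(1 - Q/V) (1 + i)` is not in the slit plane; then (`P4a177o.GoodOAux.slit`) `1 - Q/V` is
`-(r/2)(1 - i)`, `r ≥ 0`, so with `ρ = V r/2 ≥ 0`: `re Q = V + ρ`, `im Q = -ρ`. Exactly as in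
`P4a177o.good_cco`, but with the `n = ∑ c_j` numbers `p_(j)` each repeated `c_j` times: let
`n = ∑ j, c j`, `r : Fin n → Fin m`, `r i = (finSigmaFinEquiv.symm i).1`, then for every function `g`
on `Fin m` with values in a commutative monoid `∏ i, g (r i) = ∏ j, g j ^ c j`
(`finSigmaFinEquiv : (Σ j : Fin m, Fin (c j)) ≃ Fin (∑ j, c j)`, `Equiv.prod_comp`,
`Finset.prod_sigma`/`Fintype.prod_sigma`, `Finset.prod_const`, `Finset.card_fin`).
`prod_approx n 3` (with `p (r i)`, `s_i = sin^2 θ_(r i)`, `b_i = 2 cos^2 θ_(r i)`; `gg_sq_approx`) gives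
`‖Q - S (1 + i ε B)‖ ≤ K ε^2`; `one_sub_prod_le` gives `1 - S ≤ B/2`; `P4a177o.GoodOAux.core` gives
`|V - 1| min V 1 ≤ 4 K ε`, impossible for `ε < |V - 1| min V 1 / (4 K)`.
-/

set_option autoImplicit false

namespace P4a177c

open P4a177h P4a177o Function MeasureTheory Filter Topology
open scoped Real

namespace GoodCAux

/-- the index `j` is repeated `c j` times -/
def rr {m : ℕ} (c : Fin m → ℕ) (i : Fin (∑ j, c j)) : Fin m := (finSigmaFinEquiv.symm i).1

theorem prod_rr {m : ℕ} (c : Fin m → ℕ) {M : Type*} [CommMonoid M] (g : Fin m → M) :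
    ∏ i, g (rr c i) = ∏ j, g j ^ c j := by
  unfold rr
  rw [Equiv.prod_comp (finSigmaFinEquiv (n := c)).symm (fun x : (Σ j : Fin m, Fin (c j)) => g x.1),
    Fintype.prod_sigma]
  apply Finset.prod_congr rfl
  intro j _
  simp

end GoodCAux

open GoodCAux

theorem good_yc {m : ℕ} (c : Fin m → ℕ) {V : ℝ} (hV : 0 < V) (hV1 : V ≠ 1) :
    ∃ ε0 : ℝ, 0 < ε0 ∧ ε0 ≤ 1 / 10 ∧
      ∀ ε : ℝ, 0 < ε → ε < ε0 → ∀ θ : Fin m → ℝ, Good (yc c V ε θ) := by
  obtain ⟨K, hK, happ⟩ := prod_approx (∑ j, c j) 3 (by norm_num)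
  have hδ : 0 < |V - 1| * min V 1 :=
    mul_pos (abs_pos.2 (sub_ne_zero.2 hV1)) (lt_min hV one_pos)
  refine ⟨min (1 / 10) (|V - 1| * min V 1 / (4 * K)), lt_min (by norm_num) (by positivity),
    min_le_left _ _, ?_⟩
  intro ε hε hε0 θ
  have hε1 : ε < 1 / 10 := hε0.trans_le (min_le_left _ _)
  have hε2 : ε < |V - 1| * min V 1 / (4 * K) := hε0.trans_le (min_le_right _ _)
  rw [lt_div_iff₀ (by positivity)] at hε2
  refine ⟨yc_ne_zero c hV hε θ, ?_⟩
  by_contra hcon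
  obtain ⟨him, hre⟩ := P4a177o.GoodOAux.slit hcon
  set Q : ℂ := ∏ j, (-(gg ε (θ j)) ^ 2 / 4) ^ c j with hQ
  have hQr : ∏ i, (fun i => -(gg ε (θ (rr c i))) ^ 2 / 4) i = Q :=
    prod_rr c fun j => (-(gg ε (θ j)) ^ 2 / 4 : ℂ)
  rw [yc_sq c hV ε θ, ← hQ] at him hre
  have hqre : (Q / (V : ℂ)).re = Q.re / V := Complex.div_ofReal_re Q V
  have hqim : (Q / (V : ℂ)).im = Q.im / V := Complex.div_ofReal_im Q V
  rw [Complex.sub_re, Complex.sub_im, hqre, hqim, Complex.one_re, Complex.one_im] at him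
  rw [Complex.sub_re, hqre, Complex.one_re] at hre
  have hQim : Q.im = -(Q.re - V) := by
    have h5 : Q.im / V = 1 - Q.re / V := by linarith
    rw [div_eq_iff hV.ne', sub_mul, div_mul_cancel₀ _ hV.ne', one_mul] at h5
    linarith
  have hQre : V ≤ Q.re := by
    have h5 : 1 ≤ Q.re / V := by linarith
    rwa [le_div_iff₀ hV, one_mul] at h5
  have hgg := happ ε hε (by linarith) (fun i => -(gg ε (θ (rr c i))) ^ 2 / 4)
    (fun i => Real.sin (θ (rr c i)) ^ 2) (fun i => 2 * Real.cos (θ (rr c i)) ^ 2)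
    (fun i => ⟨sq_nonneg _, Real.sin_sq_le_one _⟩)
    (fun i => ⟨by positivity, by have := Real.cos_sq_le_one (θ (rr c i)); linarith⟩)
    (fun i => gg_sq_approx hε hε1.le (θ (rr c i)))
  rw [hQr] at hgg
  set S : ℝ := ∏ i, Real.sin (θ (rr c i)) ^ 2 with hS
  set B : ℝ := ∑ i, 2 * Real.cos (θ (rr c i)) ^ 2 with hB
  have hS0 : 0 ≤ S := Finset.prod_nonneg fun j _ => sq_nonneg _
  have hS1 : S ≤ 1 := Finset.prod_le_one (fun j _ => sq_nonneg _) fun j _ => Real.sin_sq_le_one _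
  have hSB : 1 - S ≤ B / 2 := by
    have h5 := one_sub_prod_le (fun i => Real.cos (θ (rr c i)) ^ 2)
      (fun i => ⟨sq_nonneg _, Real.cos_sq_le_one _⟩)
    have h6 : ∏ i, (1 - Real.cos (θ (rr c i)) ^ 2) = S := by
      apply Finset.prod_congr rfl
      intro i _
      rw [Real.sin_sq]
    have h7 : ∑ i, Real.cos (θ (rr c i)) ^ 2 = B / 2 := by
      rw [hB, Finset.sum_div]
      apply Finset.sum_congr rfl
      intro i _
      ring
    rw [h6, h7] at h5
    exact h5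
  have hdre : (Q - (S : ℂ) * (1 + ((ε * B : ℝ) : ℂ) * Complex.I)).re = V + (Q.re - V) - S := by
    rw [Complex.sub_re, Complex.re_ofReal_mul, Complex.add_re, Complex.re_ofReal_mul]
    simp
  have hdim : (Q - (S : ℂ) * (1 + ((ε * B : ℝ) : ℂ) * Complex.I)).im =
      -(Q.re - V) - S * (ε * B) := by
    rw [Complex.sub_im, Complex.im_ofReal_mul, Complex.add_im, Complex.im_ofReal_mul, hQim]
    simp
  have h1 := (Complex.abs_re_le_norm _).trans hgg
  have h2 := (Complex.abs_im_le_norm _).trans hgg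
  rw [hdre] at h1
  rw [hdim] at h2
  have h3 := P4a177o.GoodOAux.core hV hK hε (by linarith) hS0 hS1 hSB (by linarith) h1 h2
  have h5 : ε * (4 * K) = 4 * (K * ε) := by ring
  linarith

end P4a177c
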