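import Pool.Agent.Lib.P4a177c.Defs

/-!
# The hypersurface is geometrically irreducible

`F = map (algebraMap ℚ ℂ) (eqn c e N) = N X_0 (1 - X_0)^e ∏ (X_j (1 - X_j))^(c_j) - 1` over `ℂ`, as a
polynomial in the one variable `X = X_1` over `R = ℂ[X_0, X_2, …, X_m]`, is `C A * (X (1 - X))^a - 1`
with `a = c_1 ≥ 1`, `A = X_0 * A'`, `X_0 ∤ A'`. If it is `G * H`, then modulo the prime `X_0` one has
`G H = -1`, so `G` and `H` are constants modulo `X_0`; if both have positive degree then their leading
coefficients are divisible by `X_0`, so the leading coefficient `± A` of `G H` is divisible by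
`X_0^2`, a contradiction.
-/

set_option autoImplicit false

namespace P4a177c

open MvPolynomial

namespace IrrCAux

/-- Modulo a prime, the factors of a polynomial which is `-1` modulo the prime are constant. -/
theorem dvd_coeff {R : Type*} [CommRing R] [IsDomain R] {p : R} (hp : Prime p)
    {G H T : Polynomial R} (h : G * H = Polynomial.C p * T - 1) {n : ℕ} (hn : n ≠ 0) :
    p ∣ G.coeff n := by
  have hI : (Ideal.span {p}).IsPrime := (Ideal.span_singleton_prime hp.ne_zero).2 hp
  let π : R →+* R ⧸ Ideal.span {p} := Ideal.Quotient.mk _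
  have hπ : π p = 0 := Ideal.Quotient.eq_zero_iff_mem.2 (Ideal.mem_span_singleton_self p)
  have h1 : G.map π * H.map π = -1 := by
    rw [← Polynomial.map_mul, h, Polynomial.map_sub, Polynomial.map_mul, Polynomial.map_C, hπ]
    simp
  have h2 : IsUnit (G.map π) := by
    refine IsUnit.of_mul_eq_one (-H.map π) ?_
    rw [mul_neg, h1, neg_neg]
  have h3 : (G.map π).natDegree = 0 := Polynomial.natDegree_eq_zero_of_isUnit h2
  have h4 : (G.map π).coeff n = 0 :=
    Polynomial.coeff_eq_zero_of_natDegree_lt (by omega)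
  rw [Polynomial.coeff_map] at h4
  exact Ideal.mem_span_singleton.1 (Ideal.Quotient.eq_zero_iff_mem.1 h4)

/-- an irreducibility criterion of Eisenstein type -/
theorem abstract {R : Type*} [CommRing R] [IsDomain R] {p A' : R} (hp : Prime p)
    (hA : ¬ p ∣ A') (Q : Polynomial R) (hQ : IsUnit Q.leadingCoeff) (hd : 1 ≤ Q.natDegree) :
    Irreducible (Polynomial.C (p * A') * Q - 1) := by
  have hA' : A' ≠ 0 := by
    rintro rfl
    exact hA (dvd_zero p)
  have hA0 : p * A' ≠ 0 := mul_ne_zero hp.ne_zero hA'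
  have hdCQ : (Polynomial.C (p * A') * Q).natDegree = Q.natDegree :=
    Polynomial.natDegree_C_mul hA0
  have hdP : (Polynomial.C (p * A') * Q - 1).natDegree = Q.natDegree := by
    rw [Polynomial.natDegree_sub_eq_left_of_natDegree_lt]
    · exact hdCQ
    · rw [hdCQ, Polynomial.natDegree_one]
      omega
  have hlc : (Polynomial.C (p * A') * Q - 1).leadingCoeff = p * A' * Q.leadingCoeff := by
    unfold Polynomial.leadingCoeff
    rw [hdP, Polynomial.coeff_sub, Polynomial.coeff_C_mul, Polynomial.coeff_one, if_neg (by omega),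
      sub_zero]
  have hP0 : Polynomial.C (p * A') * Q - 1 ≠ 0 := by
    intro h
    rw [h, Polynomial.natDegree_zero] at hdP
    omega
  have hconst : ∀ g : R, Polynomial.C g ∣ Polynomial.C (p * A') * Q - 1 →
      IsUnit (Polynomial.C g) := by
    intro g hg
    rw [Polynomial.C_dvd_iff_dvd_coeff] at hg
    have h1 : g ∣ p * A' := by
      have := hg (Polynomial.C (p * A') * Q - 1).natDegree
      rw [Polynomial.coeff_natDegree, hlc] at this
      exact (hQ.dvd_mul_right).1 this
    have h2 := hg 0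
    rw [Polynomial.coeff_sub, Polynomial.coeff_C_mul, Polynomial.coeff_one_zero] at h2
    have h3 : g ∣ 1 := (dvd_sub_right (h1.mul_right _)).1 h2
    exact Polynomial.isUnit_C.2 (isUnit_of_dvd_one h3)
  refine ⟨?_, ?_⟩
  · intro hu
    have := Polynomial.natDegree_eq_zero_of_isUnit hu
    omega
  · intro G H hGH
    have hG0 : G ≠ 0 := by
      intro h
      rw [h, zero_mul] at hGH
      exact hP0 hGH
    have hH0 : H ≠ 0 := by
      intro h
      rw [h, mul_zero] at hGH
      exact hP0 hGH
    by_cases hG : G.natDegree = 0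
    · left
      rw [Polynomial.eq_C_of_natDegree_eq_zero hG]
      refine hconst _ ?_
      rw [← Polynomial.eq_C_of_natDegree_eq_zero hG, hGH]
      exact dvd_mul_right _ _
    by_cases hH : H.natDegree = 0
    · right
      rw [Polynomial.eq_C_of_natDegree_eq_zero hH]
      refine hconst _ ?_
      rw [← Polynomial.eq_C_of_natDegree_eq_zero hH, hGH]
      exact dvd_mul_left _ _
    exfalso
    have e1 : G * H = Polynomial.C p * (Polynomial.C A' * Q) - 1 := by
      rw [← hGH, map_mul, mul_assoc]
    have e2 : H * G = Polynomial.C p * (Polynomial.C A' * Q) - 1 := by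
      rw [mul_comm, e1]
    have d1 : p ∣ G.leadingCoeff := dvd_coeff hp e1 hG
    have d2 : p ∣ H.leadingCoeff := dvd_coeff hp e2 hH
    have d3 : p * p ∣ p * A' * Q.leadingCoeff := by
      rw [← hlc, hGH, Polynomial.leadingCoeff_mul]
      exact mul_dvd_mul d1 d2
    have d4 : p * p ∣ p * A' := (hQ.dvd_mul_right).1 d3
    exact hA ((mul_dvd_mul_iff_left hp.ne_zero).1 d4)

theorem natDegree_one_sub {R : Type*} [CommRing R] [IsDomain R] :
    (1 - Polynomial.X : Polynomial R).natDegree = 1 := by
  have : (1 - Polynomial.X : Polynomial R) = -(Polynomial.X - Polynomial.C 1) := by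
    rw [map_one]
    ring
  rw [this, Polynomial.natDegree_neg, Polynomial.natDegree_X_sub_C]

theorem leadingCoeff_one_sub {R : Type*} [CommRing R] [IsDomain R] :
    (1 - Polynomial.X : Polynomial R).leadingCoeff = -1 := by
  have : (1 - Polynomial.X : Polynomial R) = -(Polynomial.X - Polynomial.C 1) := by
    rw [map_one]
    ring
  rw [this, Polynomial.leadingCoeff_neg, Polynomial.leadingCoeff_X_sub_C]

end IrrCAux

open IrrCAux in
theorem geomIrreducible {m : ℕ} (hm : 1 ≤ m) {c : Fin m → ℕ} (hc : ∀ j, 1 ≤ c j) {e N : ℕ}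
    (hN : 1 ≤ N) : GeomIrreducible c e N := by
  obtain ⟨k, rfl⟩ : ∃ k, m = k + 1 := ⟨m - 1, by omega⟩
  unfold GeomIrreducible
  let σ : MvPolynomial (Fin (k + 2)) ℂ ≃ₐ[ℂ] Polynomial (MvPolynomial (Fin (k + 1)) ℂ) :=
    (MvPolynomial.renameEquiv ℂ (Equiv.swap 0 1)).trans (MvPolynomial.finSuccEquiv ℂ (k + 1))
  rw [← MulEquiv.irreducible_iff σ]
  let ψ : MvPolynomial (Fin (k + 2)) ℚ →+* Polynomial (MvPolynomial (Fin (k + 1)) ℂ) :=
    ((σ : MvPolynomial (Fin (k + 2)) ℂ →+* Polynomial (MvPolynomial (Fin (k + 1)) ℂ))).comp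
      (MvPolynomial.map (algebraMap ℚ ℂ))
  have hmap := map_expr (c := c) (e := e) (N := N) ψ MvPolynomial.X
  have hX : ∀ i : Fin (k + 2), ψ (X i) =
      MvPolynomial.finSuccEquiv ℂ (k + 1) (X (Equiv.swap 0 1 i)) := by
    intro i
    show σ (MvPolynomial.map (algebraMap ℚ ℂ) (X i)) = _
    rw [MvPolynomial.map_X]
    show MvPolynomial.finSuccEquiv ℂ (k + 1)
      (MvPolynomial.rename (Equiv.swap (0 : Fin (k + 2)) 1) (X i)) = _
    rw [MvPolynomial.rename_X]
  have hX0 : ψ (X 0) = Polynomial.C (X 0) := by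
    rw [hX, Equiv.swap_apply_left]
    exact MvPolynomial.finSuccEquiv_X_succ (j := (0 : Fin (k + 1)))
  have hX1 : ψ (X (Fin.succ 0)) = Polynomial.X := by
    rw [hX, show (Fin.succ 0 : Fin (k + 2)) = 1 from rfl, Equiv.swap_apply_right]
    exact MvPolynomial.finSuccEquiv_X_zero
  have hX2 : ∀ j : Fin k, ψ (X (Fin.succ (Fin.succ j))) = Polynomial.C (X (Fin.succ j)) := by
    intro j
    rw [hX, Equiv.swap_apply_of_ne_of_ne (Fin.succ_ne_zero _) (by
      intro h
      have := congrArg Fin.val h
      simp at this)]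
    exact MvPolynomial.finSuccEquiv_X_succ
  have hP : σ (MvPolynomial.map (algebraMap ℚ ℂ) (eqn c e N)) =
      Polynomial.C (X 0 * ((N : MvPolynomial (Fin (k + 1)) ℂ) * ((1 - X 0) ^ e *
        ∏ j : Fin k, (X (Fin.succ j) * (1 - X (Fin.succ j))) ^ c (Fin.succ j)))) *
        (Polynomial.X * (1 - Polynomial.X)) ^ c 0 - 1 := by
    show ψ (eqn c e N) = _
    unfold eqn
    rw [map_sub, map_one, hmap]
    unfold expr
    rw [Fin.prod_univ_succ]
    beta_reduce
    rw [hX0, hX1]
    simp only [hX2]
    simp only [map_mul, map_pow, map_sub, map_one, map_prod, map_natCast]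
    ring
  rw [hP]
  refine IrrCAux.abstract (MvPolynomial.X_prime (i := (0 : Fin (k + 1)))) ?_ _ ?_ ?_
  · rintro ⟨q, hq⟩
    have h := congrArg (MvPolynomial.eval (Fin.cons (0 : ℂ) (fun _ : Fin k => (2 : ℂ)))) hq
    simp only [map_mul, map_prod, map_pow, map_sub, map_one, map_natCast, MvPolynomial.eval_X,
      Fin.cons_zero, Fin.cons_succ, zero_mul, sub_zero, one_pow, one_mul] at h
    rcases mul_eq_zero.1 h with h1 | h1
    · have : N = 0 := by exact_mod_cast h1
      omega
    · rw [Finset.prod_eq_zero_iff] at h1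
      obtain ⟨j, _, hj⟩ := h1
      exact pow_ne_zero _ (by norm_num) hj
  · rw [Polynomial.leadingCoeff_pow, Polynomial.leadingCoeff_mul, Polynomial.leadingCoeff_X,
      leadingCoeff_one_sub, one_mul]
    exact (isUnit_one.neg).pow _
  · rw [Polynomial.natDegree_pow, Polynomial.natDegree_mul Polynomial.X_ne_zero (by
      intro h
      have := natDegree_one_sub (R := MvPolynomial (Fin (k + 1)) ℂ)
      rw [h, Polynomial.natDegree_zero] at this
      omega), Polynomial.natDegree_X, natDegree_one_sub]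
    have := hc 0
    omega

end P4a177c
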