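import Pool.Agent.Lib.P4a177c.Ana
import Pool.Agent.Lib.P4a177o.NullO

/-!
# MODULE P4a177c.NullC: the exceptional points form a null set (est. 1.2 h; adapt
# `Lib/P4a177o/NullO.lean` and `ae_SS` of `Lib/P4a177t/LogInt.lean`)

PROOF. `ae_sin`: `P4a177t.LogIntAux.ae_all` (`sin (2 θ_j) ≠ 0`), or `ae_SS`.
`ae_y0`: `y0 θ ≠ 0` if all `sin θ_j ≠ 0`. `y0^2 = 1` means `∏ |sin θ_j|^(c_j) = √V =: v > 0`. As in `ae_SS_ne`:
`m = n + 1`, `ℝ^(n+1) = ℝ × ℝ^n`; for fixed `θ'`, with `S' = ∏_(j ≥ 1) |sin θ_j|^(c_j)`, the set of the `t` with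
`|sin t|^(c_0) S' = v` is contained in a set `{t | |sin t| = y}` (`y = (v/S')^(1/c_0)`; `c_0 ≥ 1`, the
function `y ↦ y^(c_0)` is injective on `[0, ∞)`), hence in a set `{t | cos (2 t) = y'}`, which is
countable (`P4a177o.NullOAux.countable_cos`, `null_fiber`).
-/

set_option autoImplicit false

namespace P4a177c

open P4a177h P4a177o Function MeasureTheory
open scoped Real

namespace NullCAux

theorem null_fiber {v S : ℝ} (hv : 0 < v) {n : ℕ} (hn : 1 ≤ n) :
    volume {t : ℝ | |Real.sin t| ^ n * S = v} = 0 := by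
  by_cases hS : S = 0
  · subst hS
    have : {t : ℝ | |Real.sin t| ^ n * 0 = v} = ∅ := by
      ext t
      simp only [mul_zero, Set.mem_ofPred_eq, Set.mem_empty_iff_false, iff_false]
      exact hv.ne
    rw [this]
    exact measure_empty
  · refine Set.Countable.measure_zero
      ((P4a177o.NullOAux.countable_cos (1 - 2 * ((v / S) ^ ((n : ℝ)⁻¹)) ^ 2)).mono ?_) _
    intro t ht
    have ht' : |Real.sin t| ^ n * S = v := ht
    have h1 : |Real.sin t| ^ n = v / S := by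
      rw [eq_div_iff hS]
      exact ht'
    have h2 : |Real.sin t| = (v / S) ^ ((n : ℝ)⁻¹) := by
      rw [← h1, Real.pow_rpow_inv_natCast (abs_nonneg _) (by omega)]
    show Real.cos (2 * t) = 1 - 2 * ((v / S) ^ ((n : ℝ)⁻¹)) ^ 2
    rw [← h2, sq_abs, Real.cos_two_mul, Real.cos_sq']
    ring

/-- the product of the `|sin θ_j|^(c_j)` -/
noncomputable def TT {m : ℕ} (c : Fin m → ℕ) (θ : Fin m → ℝ) : ℝ := ∏ j, |Real.sin (θ j)| ^ c j

theorem measurable_TT {m : ℕ} (c : Fin m → ℕ) : Measurable (TT c) := by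
  unfold TT
  fun_prop

theorem ae_TT_ne {m : ℕ} (hm : 1 ≤ m) {c : Fin m → ℕ} (hc : ∀ j, 1 ≤ c j) {v : ℝ} (hv : 0 < v) :
    ∀ᵐ θ ∂(volume.restrict (box m) : Measure (Fin m → ℝ)), TT c θ ≠ v := by
  obtain ⟨n, rfl⟩ : ∃ n, m = n + 1 := ⟨m - 1, by omega⟩
  refine ae_restrict_of_ae ?_
  rw [ae_iff]
  simp only [not_not]
  have hmeas : MeasurableSet {θ : Fin (n + 1) → ℝ | TT c θ = v} :=
    (measurable_TT c) (measurableSet_singleton v)
  have hmp := MeasureTheory.volume_preserving_piFinSuccAbove (fun _ : Fin (n + 1) => ℝ) 0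
  have hset : {θ : Fin (n + 1) → ℝ | TT c θ = v} =
      (MeasurableEquiv.piFinSuccAbove (fun _ : Fin (n + 1) => ℝ) 0) ⁻¹'
        {p : ℝ × (Fin n → ℝ) | |Real.sin p.1| ^ c 0 * TT (fun j => c j.succ) p.2 = v} := by
    ext θ
    simp only [Set.mem_ofPred_eq, Set.mem_preimage]
    have e : TT c θ =
        |Real.sin ((MeasurableEquiv.piFinSuccAbove (fun _ : Fin (n + 1) => ℝ) 0) θ).1| ^ c 0 *
        TT (fun j => c j.succ)
          ((MeasurableEquiv.piFinSuccAbove (fun _ : Fin (n + 1) => ℝ) 0) θ).2 := by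
      unfold TT
      rw [Fin.prod_univ_succ]
      rfl
    rw [e]
  have hmeas2 : MeasurableSet {p : ℝ × (Fin n → ℝ) |
      |Real.sin p.1| ^ c 0 * TT (fun j => c j.succ) p.2 = v} := by
    have : Measurable (fun p : ℝ × (Fin n → ℝ) =>
        |Real.sin p.1| ^ c 0 * TT (fun j => c j.succ) p.2) := by
      have h1 : Measurable (fun p : ℝ × (Fin n → ℝ) => |Real.sin p.1| ^ c 0) := by fun_prop
      exact h1.mul ((measurable_TT _).comp measurable_snd)
    exact this (measurableSet_singleton v)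
  rw [hset, hmp.measure_preimage hmeas2.nullMeasurableSet]
  change (volume.prod volume) {p : ℝ × (Fin n → ℝ) |
    |Real.sin p.1| ^ c 0 * TT (fun j => c j.succ) p.2 = v} = 0
  rw [Measure.prod_apply_symm hmeas2]
  rw [lintegral_eq_zero_iff (measurable_measure_prodMk_right hmeas2)]
  refine Filter.Eventually.of_forall fun θ' => ?_
  exact null_fiber (S := TT (fun j => c j.succ) θ') hv (hc 0)

end NullCAux

theorem ae_sin (m : ℕ) :
    ∀ᵐ θ ∂(volume.restrict (box m) : Measure (Fin m → ℝ)), ∀ j, Real.sin (θ j) ≠ 0 := by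
  refine ae_restrict_of_ae ?_
  filter_upwards [P4a177t.LogIntAux.ae_all m] with θ hθ j h
  refine hθ j ?_
  rw [Real.sin_two_mul, h]
  ring

theorem ae_y0 {m : ℕ} (hm : 1 ≤ m) {c : Fin m → ℕ} (hc : ∀ j, 1 ≤ c j) {V : ℝ} (hV : 0 < V) :
    ∀ᵐ θ ∂(volume.restrict (box m) : Measure (Fin m → ℝ)),
      y0 c V θ ≠ 0 ∧ y0 c V θ ^ 2 ≠ 1 := by
  filter_upwards [ae_sin m, NullCAux.ae_TT_ne hm hc (Real.sqrt_pos.2 hV)] with θ h1 h2
  have hv : √V ≠ 0 := (Real.sqrt_pos.2 hV).ne'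
  refine ⟨?_, fun h => h2 ?_⟩
  · unfold y0
    exact div_ne_zero (Finset.prod_ne_zero_iff.2 fun j _ => pow_ne_zero _ (h1 j)) hv
  · have e : NullCAux.TT c θ = |y0 c V θ| * √V := by
      unfold NullCAux.TT y0
      rw [abs_div, abs_of_pos (Real.sqrt_pos.2 hV), div_mul_cancel₀ _ hv, Finset.abs_prod]
      exact Finset.prod_congr rfl fun j _ => (abs_pow _ _).symm
    have e2 : |y0 c V θ| = 1 := by
      have h3 : |y0 c V θ| ^ 2 = 1 := by rw [sq_abs, h]
      nlinarith [abs_nonneg (y0 c V θ)]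
    rw [e, e2, one_mul]

end P4a177c
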