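import Pool.Agent.Lib.P4a177c.GoodC
import Pool.Agent.Lib.P4a177c.NullC
import Pool.Agent.Lib.P4a177o.Lim1b

/-!
# MODULE P4a177c.LimErrC: the error terms (est. 1 h; adapt `Lib/P4a177o/Lim1b.lean`)

PROOF. Dominated convergence for the filter `𝓝[>] 0`, `volume.restrict (box m)`, with a constant
bound. Let `ε0` be as in `good_yc`; eventually `0 < ε < ε0 ≤ 1/10`. For those `ε`:
`|aa (lg).re| ≤ 3` (`abs_aa_mul_lg_le`), `|da| |im log (1 - f)| ≤ 1 * 4` (`abs_da_le`,
`Complex.log_im`, `Complex.abs_arg_le_pi`), `|CC ε k θ| ≤ 4^m` (products of at most `m` factors in all, each of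
absolute value at most `4` by `norm_tf_le`). Pointwise: for almost all `θ` (`ae_sin`) `aa (lg).re → 0`
(`tendsto_aa_mul_lg`), `da → 0` (`tendsto_da`) while the other factors are bounded. Measurability:
continuity of the integrand for `0 < ε < ε0` (`lg_continuous`, `RootSpec.contDiffAt` and `RootSpec.slit`
with `good_yc`, `yc_continuous`, `tf_continuous`, `aa_continuous`, `da_continuous`).
-/

set_option autoImplicit false

namespace P4a177c

open P4a177h P4a177o Function MeasureTheory Filter Topology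
open scoped Real

namespace LimErrCAux

theorem card_le {m : ℕ} (s : Finset (Fin m)) : s.card ≤ m := by
  calc s.card ≤ (Finset.univ : Finset (Fin m)).card := Finset.card_le_univ s
    _ = m := by simp

theorem norm_two_tf_le {ε : ℝ} (h0 : 0 < ε) (h1 : ε ≤ 1 / 10) (t : ℝ) :
    ‖(2 : ℂ) * tf ε t‖ ≤ 4 := by
  rw [norm_mul, Complex.norm_ofNat]
  have := norm_tf_le h0 h1 t
  linarith

theorem cont_CC {m : ℕ} (ε : ℝ) (k : Fin m) : Continuous (fun θ : Fin m → ℝ => CC ε k θ) := by
  unfold CC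
  refine Continuous.mul ?_ ?_
  · apply continuous_finsetProd
    intro j _
    exact Complex.continuous_re.comp
      (continuous_const.mul ((tf_continuous ε).comp (continuous_apply j)))
  · apply Complex.continuous_re.comp
    apply continuous_finsetProd
    intro j _
    exact continuous_const.mul ((tf_continuous ε).comp (continuous_apply j))

theorem abs_CC_le {m : ℕ} {ε : ℝ} (h0 : 0 < ε) (h1 : ε ≤ 1 / 10) (k : Fin m)
    (θ : Fin m → ℝ) : |CC ε k θ| ≤ 4 ^ m * 4 ^ m := by
  unfold CC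
  rw [abs_mul]
  refine mul_le_mul ?_ ?_ (abs_nonneg _) (by positivity)
  · rw [Finset.abs_prod]
    calc ∏ j with j < k, |((2 : ℂ) * tf ε (θ j)).re|
        ≤ ∏ j ∈ (Finset.univ.filter fun j : Fin m => j < k), (4 : ℝ) :=
          Finset.prod_le_prod (fun _ _ => abs_nonneg _) fun j _ =>
            (Complex.abs_re_le_norm _).trans (norm_two_tf_le h0 h1 _)
      _ = 4 ^ (Finset.univ.filter fun j : Fin m => j < k).card := by simp
      _ ≤ 4 ^ m := pow_le_pow_right₀ (by norm_num) (card_le _)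
  · refine (Complex.abs_re_le_norm _).trans ?_
    rw [norm_prod]
    calc ∏ j with k < j, ‖(2 : ℂ) * tf ε (θ j)‖
        ≤ ∏ j ∈ (Finset.univ.filter fun j : Fin m => k < j), (4 : ℝ) :=
          Finset.prod_le_prod (fun _ _ => norm_nonneg _) fun j _ => norm_two_tf_le h0 h1 _
      _ = 4 ^ (Finset.univ.filter fun j : Fin m => k < j).card := by simp
      _ ≤ 4 ^ m := pow_le_pow_right₀ (by norm_num) (card_le _)

theorem tendsto_CC {m : ℕ} (k : Fin m) (θ : Fin m → ℝ) :
    ∃ L : ℝ, Tendsto (fun ε => CC ε k θ) (𝓝[>] 0) (𝓝 L) := by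
  have h0 : ∀ t : ℝ, Tendsto (fun ε => (2 : ℂ) * tf ε t) (𝓝[>] 0) (𝓝 (2 * 1)) := fun t =>
    (tendsto_tf t).const_mul 2
  have h1 : Tendsto (fun ε => ∏ j ∈ (Finset.univ.filter fun j : Fin m => k < j),
      (2 : ℂ) * tf ε (θ j)) (𝓝[>] 0)
      (𝓝 (∏ _j ∈ (Finset.univ.filter fun j : Fin m => k < j), (2 * 1 : ℂ))) :=
    tendsto_finsetProd _ fun j _ => h0 (θ j)
  have h2 := (Complex.continuous_re.tendsto _).comp h1
  have h3 : Tendsto (fun ε => ∏ j ∈ (Finset.univ.filter fun j : Fin m => j < k),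
      ((2 : ℂ) * tf ε (θ j)).re) (𝓝[>] 0)
      (𝓝 (∏ _j ∈ (Finset.univ.filter fun j : Fin m => j < k), (2 * 1 : ℂ).re)) :=
    tendsto_finsetProd _ fun j _ => (Complex.continuous_re.tendsto _).comp (h0 (θ j))
  exact ⟨_, h3.mul h2⟩

theorem abs_log_im_le (z : ℂ) : |(Complex.log z).im| ≤ 4 := by
  rw [Complex.log_im]
  exact (Complex.abs_arg_le_pi z).trans Real.pi_le_four

end LimErrCAux

open LimErrCAux

theorem tendsto_RE {m : ℕ} (c : Fin m → ℕ) {V : ℝ} (hV : 0 < V)
    (hV1 : V ≠ 1) {e : ℕ} {f : ℂ → ℂ} (hf : RootSpec e f) (k : Fin m) :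
    Tendsto (fun ε : ℝ => RE f c e V ε k) (𝓝[>] 0) (𝓝 0) := by
  obtain ⟨ε0, hε0, hε1, hgood⟩ := good_yc c hV hV1
  have hev : ∀ᶠ ε in 𝓝[>] (0 : ℝ), 0 < ε ∧ ε < ε0 := Ioo_mem_nhdsGT hε0
  have hz : (0 : ℝ) = ∫ _θ in box m, (0 : ℝ) := by simp
  unfold RE
  suffices h : Tendsto (fun ε : ℝ => ∫ θ in box m,
        (4 * c k * (aa ε (θ k) * (lg ε (θ k)).re) +
          2 * (e + 1) * (da ε (θ k) * (Complex.log (1 - f (yc c V ε θ))).im)) * CC ε k θ)
      (𝓝[>] 0) (𝓝 (∫ _θ in box m, (0 : ℝ))) by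
    rw [← hz] at h
    exact h
  refine tendsto_integral_filter_of_dominated_convergence
    (fun _ : Fin m → ℝ => ((12 : ℝ) * c k + 8 * (e + 1)) * (4 ^ m * 4 ^ m)) ?_ ?_ ?_ ?_
  · filter_upwards [hev] with ε hε
    apply Continuous.aestronglyMeasurable
    have h1 : Continuous (fun θ : Fin m → ℝ => Complex.log (1 - f (yc c V ε θ))) := by
      rw [continuous_iff_continuousAt]
      intro θ
      have hg := hgood ε hε.1 hε.2 θ
      have h3 : ContinuousAt (fun θ : Fin m → ℝ => f (yc c V ε θ)) θ :=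
        ContinuousAt.comp (g := f) (hf.contDiffAt _ hg).continuousAt
          (yc_continuous c V ε).continuousAt
      exact (continuousAt_const.sub h3).clog (hf.slit _ hg)
    have h2 : Continuous (fun θ : Fin m → ℝ => θ k) := continuous_apply k
    refine (Continuous.add ?_ ?_).mul (cont_CC ε k)
    · exact continuous_const.mul (((aa_continuous ε).comp h2).mul
        (Complex.continuous_re.comp ((lg_continuous hε.1).comp h2)))
    · exact continuous_const.mul (((da_continuous ε).comp h2).mul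
        (Complex.continuous_im.comp h1))
  · filter_upwards [hev] with ε hε
    refine Eventually.of_forall fun θ => ?_
    have hε2 : ε ≤ 1 / 10 := hε.2.le.trans hε1
    have h1 := abs_aa_mul_lg_le hε.1 hε2 (θ k)
    have h2 := abs_da_le hε.1 (θ k)
    have h3 := abs_log_im_le (1 - f (yc c V ε θ))
    rw [norm_mul, Real.norm_eq_abs, Real.norm_eq_abs]
    apply mul_le_mul _ (abs_CC_le hε.1 hε2 k θ) (abs_nonneg _) (by positivity)
    refine (abs_add_le _ _).trans ?_
    have h4 : |da ε (θ k)| * |(Complex.log (1 - f (yc c V ε θ))).im| ≤ 1 * 4 :=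
      mul_le_mul (by linarith) h3 (abs_nonneg _) zero_le_one
    have h5 : |(4 : ℝ) * c k * (aa ε (θ k) * (lg ε (θ k)).re)| ≤ 12 * c k := by
      rw [abs_mul, abs_of_nonneg (by positivity : (0 : ℝ) ≤ 4 * c k)]
      have := mul_le_mul_of_nonneg_left h1 (by positivity : (0 : ℝ) ≤ 4 * c k)
      linarith
    have h6 : |(2 : ℝ) * (e + 1) * (da ε (θ k) * (Complex.log (1 - f (yc c V ε θ))).im)| ≤
        8 * (e + 1) := by
      rw [abs_mul, abs_of_nonneg (by positivity : (0 : ℝ) ≤ 2 * (e + 1)), abs_mul]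
      have := mul_le_mul_of_nonneg_left h4 (by positivity : (0 : ℝ) ≤ 2 * (e + 1))
      linarith
    linarith
  · apply integrableOn_const
    · exact (isCompact_Icc.measure_lt_top (μ := (volume : Measure (Fin m → ℝ)))).ne
    · exact enorm_ne_top
  · filter_upwards [ae_sin m] with θ hθ
    have h1 := (tendsto_aa_mul_lg (θ k) (hθ k)).const_mul ((4 : ℝ) * c k)
    have h2 : Tendsto (fun ε => da ε (θ k) * (Complex.log (1 - f (yc c V ε θ))).im)
        (𝓝[>] 0) (𝓝 0) := by
      have h3 : Tendsto (fun ε => |da ε (θ k)| * 4) (𝓝[>] 0) (𝓝 0) := by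
        have := ((tendsto_da (θ k)).abs).mul_const 4
        simpa using this
      refine squeeze_zero_norm (fun ε => ?_) h3
      rw [norm_mul, Real.norm_eq_abs, Real.norm_eq_abs]
      exact mul_le_mul_of_nonneg_left (abs_log_im_le _) (abs_nonneg _)
    have h2' := h2.const_mul ((2 : ℝ) * (e + 1))
    obtain ⟨L, hL⟩ := tendsto_CC k θ
    have h3 := (h1.add h2').mul hL
    rw [mul_zero, mul_zero, add_zero, zero_mul] at h3
    exact h3

end P4a177c
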