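import Pool.Agent.Lib.P4a177c.GoodC
import Pool.Agent.Lib.P4a177c.BdC
import Pool.Agent.Lib.P4a177c.NullC
import Pool.Agent.Lib.P4a177o.Lim1a

/-!
# MODULE P4a177c.LimMainC: the limit of the main term (est. 1.3 h; adapt `Lib/P4a177o/Lim1a.lean`)

PROOF. Dominated convergence (`tendsto_integral_filter_of_dominated_convergence`) for the filter
`𝓝[>] 0`, `volume.restrict (box m)`. Let `ε0` be as in `good_yc`; eventually `0 < ε < ε0 ≤ 1/10`. Bound:
`|LU f (yc …)| ≤ D θ` (`exists_dom`, `ae_sin`), `|re ∏ 2 tf| ≤ 4^m` (`norm_tf_le`). Measurability: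
continuity of the integrand (`RootSpec.contDiffAt`, `yc_continuous`, `f_ne_zero`, `1 - f ≠ 0` by
`RootSpec.norm`, `tf_continuous`). Pointwise limit: for almost all `θ` (`ae_y0`) `y0 ≠ 0`, `y0^2 ≠ 1`, so
`Good (y0)` (`good_real`), `f` is continuous at `y0`, `tendsto_yc`; `∏ 2 tf → 2^m` (`tendsto_tf`).
So `RM f c V ε → ∫ LU f (y0) * 2^m`.
`integrableOn_LU`: the function is almost everywhere bounded by `D` (`exists_dom`); it is almost
everywhere strongly measurable: it is continuous at all `θ` with `y0 θ ≠ 0`, `(y0 θ)^2 ≠ 1` (an open set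
of full measure), or it is the almost everywhere limit of the continuous functions
`θ ↦ LU f (yc c V (1/(n+k)) θ)` (`aestronglyMeasurable_of_tendsto_ae`).
-/

set_option autoImplicit false

namespace P4a177c

open P4a177h P4a177o Function MeasureTheory Filter Topology
open scoped Real

namespace LimMainCAux

theorem cont_prod {m : ℕ} (ε : ℝ) :
    Continuous (fun θ : Fin m → ℝ => (∏ j, (2 : ℂ) * tf ε (θ j)).re) := by
  apply Complex.continuous_re.comp
  apply continuous_finsetProd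
  intro j _
  exact continuous_const.mul ((tf_continuous ε).comp (continuous_apply j))

theorem abs_prod_le {m : ℕ} {ε : ℝ} (h0 : 0 < ε) (h1 : ε ≤ 1 / 10) (θ : Fin m → ℝ) :
    |(∏ j, (2 : ℂ) * tf ε (θ j)).re| ≤ 4 ^ m := by
  refine (Complex.abs_re_le_norm _).trans ?_
  rw [norm_prod]
  calc ∏ j, ‖(2 : ℂ) * tf ε (θ j)‖ ≤ ∏ _j : Fin m, (4 : ℝ) := by
        refine Finset.prod_le_prod (fun _ _ => norm_nonneg _) fun j _ => ?_
        rw [norm_mul, Complex.norm_ofNat]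
        have := norm_tf_le h0 h1 (θ j)
        linarith
    _ = 4 ^ m := by simp

theorem tendsto_prod {m : ℕ} (θ : Fin m → ℝ) :
    Tendsto (fun ε => (∏ j, (2 : ℂ) * tf ε (θ j)).re) (𝓝[>] 0) (𝓝 (2 ^ m)) := by
  have h1 : Tendsto (fun ε => ∏ j, (2 : ℂ) * tf ε (θ j)) (𝓝[>] 0)
      (𝓝 (∏ _j : Fin m, (2 : ℂ) * 1)) :=
    tendsto_finsetProd _ fun j _ => (tendsto_tf (θ j)).const_mul 2
  have h2 := (Complex.continuous_re.tendsto _).comp h1
  have h3 : (∏ _j : Fin m, (2 : ℂ) * 1).re = 2 ^ m := by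
    rw [mul_one, Finset.prod_const, Finset.card_fin]
    have h4 : ((2 : ℂ) ^ m) = ((2 ^ m : ℝ) : ℂ) := by
      push_cast
      ring
    rw [h4, Complex.ofReal_re]
  rw [h3] at h2
  exact h2

theorem one_sub_ne {e : ℕ} {f : ℂ → ℂ} (hf : RootSpec e f) {y : ℂ} (h : Good y) :
    ‖1 - f y‖ ≠ 0 := by
  have := hf.norm y h
  intro h0
  rw [h0] at this
  norm_num at this

theorem norm_f_ne {e : ℕ} (he : 1 ≤ e) {f : ℂ → ℂ} (hf : RootSpec e f) {y : ℂ} (h : Good y) :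
    ‖f y‖ ≠ 0 := norm_ne_zero_iff.2 (f_ne_zero he hf h)

/-- continuity of `LU f` at the good points -/
theorem continuousAt_LU {e : ℕ} (he : 1 ≤ e) {f : ℂ → ℂ} (hf : RootSpec e f) {y : ℂ}
    (h : Good y) : ContinuousAt (LU f) y := by
  have h1 : ContinuousAt f y := (hf.contDiffAt y h).continuousAt
  unfold LU
  exact (h1.norm.log (norm_f_ne he hf h)).sub
    ((continuousAt_const.sub h1).norm.log (one_sub_ne hf h))

theorem continuous_comp {m : ℕ} (c : Fin m → ℕ) {V : ℝ} {e : ℕ} (he : 1 ≤ e) {f : ℂ → ℂ}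
    (hf : RootSpec e f) {ε : ℝ} (hg : ∀ θ : Fin m → ℝ, Good (yc c V ε θ)) :
    Continuous (fun θ : Fin m → ℝ => LU f (yc c V ε θ)) := by
  rw [continuous_iff_continuousAt]
  intro θ
  exact ContinuousAt.comp (g := LU f) (continuousAt_LU he hf (hg θ))
    (yc_continuous c V ε).continuousAt

theorem tendsto_comp {m : ℕ} (c : Fin m → ℕ) (V : ℝ) {e : ℕ} (he : 1 ≤ e) {f : ℂ → ℂ}
    (hf : RootSpec e f) {θ : Fin m → ℝ} (h0 : y0 c V θ ≠ 0) (h1 : y0 c V θ ^ 2 ≠ 1) :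
    Tendsto (fun ε => LU f (yc c V ε θ)) (𝓝[>] 0) (𝓝 (LU f ((y0 c V θ : ℝ) : ℂ))) :=
  Tendsto.comp (continuousAt_LU he hf (good_real h0 h1)).tendsto (tendsto_yc c V θ)

end LimMainCAux

open LimMainCAux

theorem tendsto_RM {m : ℕ} (hm : 1 ≤ m) {c : Fin m → ℕ} (hc : ∀ j, 1 ≤ c j) {V : ℝ} (hV : 0 < V)
    (hV1 : V ≠ 1) {e : ℕ} (he : 1 ≤ e) {f : ℂ → ℂ} (hf : RootSpec e f) :
    Tendsto (fun ε : ℝ => RM f c V ε) (𝓝[>] 0)
      (𝓝 (2 ^ m * ∫ θ in box m, LU f ((y0 c V θ : ℝ) : ℂ))) := by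
  obtain ⟨ε0, hε0, hε1, hgood⟩ := good_yc c hV hV1
  obtain ⟨D, hD, hD1, -⟩ := exists_dom c hV he hf
  have hev : ∀ᶠ ε in 𝓝[>] (0 : ℝ), 0 < ε ∧ ε < ε0 := Ioo_mem_nhdsGT hε0
  have hlim : (2 : ℝ) ^ m * ∫ θ in box m, LU f ((y0 c V θ : ℝ) : ℂ) =
      ∫ θ in box m, LU f ((y0 c V θ : ℝ) : ℂ) * 2 ^ m := by
    rw [integral_mul_const, mul_comm]
  rw [hlim]
  unfold RM
  refine tendsto_integral_filter_of_dominated_convergence
    (fun θ : Fin m → ℝ => D θ * 4 ^ m) ?_ ?_ (Integrable.mul_const hD _) ?_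
  · filter_upwards [hev] with ε hε
    apply Continuous.aestronglyMeasurable
    exact (continuous_comp c he hf (hgood ε hε.1 hε.2)).mul (cont_prod ε)
  · filter_upwards [hev] with ε hε
    filter_upwards [ae_sin m] with θ hθ
    have h1 := hD1 ε hε.1 (hε.2.le.trans hε1) θ hθ (hgood ε hε.1 hε.2 θ)
    rw [norm_mul, Real.norm_eq_abs, Real.norm_eq_abs]
    exact mul_le_mul h1 (abs_prod_le hε.1 (hε.2.le.trans hε1) θ) (abs_nonneg _)
      ((abs_nonneg _).trans h1)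
  · filter_upwards [ae_y0 hm hc hV] with θ hθ
    exact (tendsto_comp c V he hf hθ.1 hθ.2).mul (tendsto_prod θ)

theorem integrableOn_LU {m : ℕ} (hm : 1 ≤ m) {c : Fin m → ℕ} (hc : ∀ j, 1 ≤ c j) {V : ℝ}
    (hV : 0 < V) (hV1 : V ≠ 1) {e : ℕ} (he : 1 ≤ e) {f : ℂ → ℂ} (hf : RootSpec e f) :
    IntegrableOn (fun θ : Fin m → ℝ => LU f ((y0 c V θ : ℝ) : ℂ)) (box m) := by
  obtain ⟨ε0, hε0, hε1, hgood⟩ := good_yc c hV hV1
  obtain ⟨D, hD, -, hD2⟩ := exists_dom c hV he hf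
  have hmeas : AEStronglyMeasurable (fun θ : Fin m → ℝ => LU f ((y0 c V θ : ℝ) : ℂ))
      (volume.restrict (box m)) := by
    have hseq : Tendsto (fun n : ℕ => ε0 / ((n : ℝ) + 2)) atTop (𝓝[>] (0 : ℝ)) := by
      rw [tendsto_nhdsWithin_iff]
      constructor
      · have h1 : Tendsto (fun n : ℕ => ε0 / (((n + 2 : ℕ) : ℝ))) atTop (𝓝 (0 : ℝ)) :=
          (tendsto_const_div_atTop_nhds_zero_nat ε0).comp (tendsto_add_atTop_nat 2)
        refine h1.congr fun n => ?_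
        push_cast
        rfl
      · refine Eventually.of_forall fun n => ?_
        show 0 < ε0 / ((n : ℝ) + 2)
        positivity
    refine aestronglyMeasurable_of_tendsto_ae atTop
      (f := fun (n : ℕ) (θ : Fin m → ℝ) => LU f (yc c V (ε0 / ((n : ℝ) + 2)) θ)) ?_ ?_
    · intro n
      apply Continuous.aestronglyMeasurable
      refine continuous_comp c he hf (hgood _ (by positivity) ?_)
      rw [div_lt_iff₀ (by positivity)]
      nlinarith [Nat.cast_nonneg (α := ℝ) n]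
    · filter_upwards [ae_y0 hm hc hV] with θ hθ
      exact (tendsto_comp c V he hf hθ.1 hθ.2).comp hseq
  refine Integrable.mono' hD hmeas ?_
  filter_upwards [ae_sin m, ae_y0 hm hc hV] with θ h1 h2
  rw [Real.norm_eq_abs]
  exact hD2 θ h1 (good_real h2.1 h2.2)

end P4a177c
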