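import Pool.Agent.Lib.P4a177c.BdC
import Pool.Agent.Lib.P4a177c.NullC

/-!
# MODULE P4a177c.PosC: the limit is negative (est. 1 h)

PROOF. Let `g θ = LU f (y0 c V θ)`. For almost all `θ` of the box (`ae_y0`) `t = y0 c V θ ≠ 0`, `t^2 ≠ 1`,
`Good t` (`good_real`), so `0 < ‖f t‖ ≤ ‖1 - f t‖` (`f_ne_zero`, `RootSpec.le`) and `g θ ≤ 0`.
Let `δ = min 1 √V > 0` and `U = {θ | ∀ j, 0 < θ_j < δ}`, an open subset of the box of positive measure
(`Measure.pi`, `Real.volume_pi_Ioo`, or `IsOpen.measure_pos`). For `θ ∈ U`: `0 < sin θ_j ≤ θ_j < δ ≤ 1`, so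
`0 < ∏ (sin θ_j)^(c_j) ≤ sin θ_(j0) < √V` (`m ≥ 1`, `c_(j0) ≥ 1`), `0 < t < 1`, so `‖f t‖ < ‖1 - f t‖`
(`RootSpec.lt`) and `g θ < 0`. So `-g` is nonnegative almost everywhere, integrable, and positive on a
set of positive measure: its integral is positive (`integral_pos_iff_support_of_nonneg_ae`, or
`integral_eq_zero_iff_of_nonneg_ae`).
-/

set_option autoImplicit false

namespace P4a177c

open P4a177h P4a177o Function MeasureTheory
open scoped Real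

namespace PosCAux

/-- the value of `y0` on a small cube -/
theorem y0_mem {m : ℕ} (hm : 1 ≤ m) {c : Fin m → ℕ} (hc : ∀ j, 1 ≤ c j) {V : ℝ} (hV : 0 < V)
    {θ : Fin m → ℝ} (h0 : ∀ j, 0 < θ j) (h1 : ∀ j, θ j < min 1 √V) :
    0 < y0 c V θ ∧ y0 c V θ < 1 := by
  have hs : 0 < √V := Real.sqrt_pos.2 hV
  have hs0 : ∀ j, 0 < Real.sin (θ j) := fun j => Real.sin_pos_of_pos_of_lt_pi (h0 j) (by
    have h2 := (h1 j).trans_le (min_le_left _ _)
    linarith [Real.pi_gt_three])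
  have hs1 : ∀ j, Real.sin (θ j) ≤ 1 := fun j => Real.sin_le_one _
  have hP : 0 < ∏ j, Real.sin (θ j) ^ c j := Finset.prod_pos fun j _ => pow_pos (hs0 j) _
  have hlt : ∏ j, Real.sin (θ j) ^ c j < √V := by
    have e := Finset.mul_prod_erase Finset.univ (fun j => Real.sin (θ j) ^ c j)
      (Finset.mem_univ (⟨0, hm⟩ : Fin m))
    rw [← e]
    have h3 : Real.sin (θ ⟨0, hm⟩) ^ c ⟨0, hm⟩ ≤ Real.sin (θ ⟨0, hm⟩) :=
      pow_le_of_le_one (hs0 _).le (hs1 _) (by have := hc ⟨0, hm⟩; omega)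
    have h4 : ∏ j ∈ Finset.univ.erase (⟨0, hm⟩ : Fin m), Real.sin (θ j) ^ c j ≤ 1 :=
      Finset.prod_le_one (fun j _ => pow_nonneg (hs0 j).le _)
        fun j _ => pow_le_one₀ (hs0 j).le (hs1 j)
    have h5 : Real.sin (θ ⟨0, hm⟩) < √V :=
      (Real.sin_le (h0 _).le).trans_lt ((h1 _).trans_le (min_le_right _ _))
    calc Real.sin (θ ⟨0, hm⟩) ^ c ⟨0, hm⟩ *
          ∏ j ∈ Finset.univ.erase (⟨0, hm⟩ : Fin m), Real.sin (θ j) ^ c j
        ≤ Real.sin (θ ⟨0, hm⟩) ^ c ⟨0, hm⟩ * 1 :=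
          mul_le_mul_of_nonneg_left h4 (pow_nonneg (hs0 _).le _)
      _ ≤ Real.sin (θ ⟨0, hm⟩) := by rw [mul_one]; exact h3
      _ < √V := h5
  unfold y0
  exact ⟨div_pos hP hs, (div_lt_one hs).2 hlt⟩

end PosCAux

open PosCAux

theorem integral_neg {m : ℕ} (hm : 1 ≤ m) {c : Fin m → ℕ} (hc : ∀ j, 1 ≤ c j) {V : ℝ}
    (hV : 0 < V) {e : ℕ} (he : 1 ≤ e) {f : ℂ → ℂ} (hf : RootSpec e f)
    (hint : IntegrableOn (fun θ : Fin m → ℝ => LU f ((y0 c V θ : ℝ) : ℂ)) (box m)) :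
    ∫ θ in box m, LU f ((y0 c V θ : ℝ) : ℂ) < 0 := by
  have hnn : 0 ≤ᵐ[volume.restrict (box m)]
      (fun θ : Fin m → ℝ => -LU f ((y0 c V θ : ℝ) : ℂ)) := by
    filter_upwards [ae_y0 hm hc hV] with θ hθ
    have hg := good_real hθ.1 hθ.2
    have h1 : 0 < ‖f ((y0 c V θ : ℝ) : ℂ)‖ := norm_pos_iff.2 (f_ne_zero he hf hg)
    have h2 := Real.log_le_log h1 (hf.le _ hθ.1 hθ.2)
    show 0 ≤ -LU f ((y0 c V θ : ℝ) : ℂ)
    unfold LU
    linarith
  have hpos : 0 < ∫ θ in box m, -LU f ((y0 c V θ : ℝ) : ℂ) := by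
    rw [integral_pos_iff_support_of_nonneg_ae hnn hint.neg]
    set δ : ℝ := min 1 √V with hδ
    have hδ0 : 0 < δ := lt_min one_pos (Real.sqrt_pos.2 hV)
    set U : Set (Fin m → ℝ) := Set.pi Set.univ fun _ => Set.Ioo 0 δ with hU
    have hUm : MeasurableSet U := MeasurableSet.univ_pi fun _ => measurableSet_Ioo
    have hUb : U ⊆ box m := by
      intro θ hθ
      have hδ1 : δ ≤ 1 := min_le_left _ _
      constructor
      · intro j
        exact (hθ j (Set.mem_univ j)).1.le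
      · intro j
        have := (hθ j (Set.mem_univ j)).2
        show θ j ≤ 2 * π
        linarith [Real.pi_gt_three]
    have hUs : U ⊆ support fun θ : Fin m → ℝ => -LU f ((y0 c V θ : ℝ) : ℂ) := by
      intro θ hθ
      obtain ⟨h1, h2⟩ := y0_mem hm hc hV (fun j => (hθ j (Set.mem_univ j)).1)
        fun j => (hθ j (Set.mem_univ j)).2
      have h3 : y0 c V θ ^ 2 < 1 := by nlinarith
      have hg := good_real h1.ne' h3.ne
      have h4 : 0 < ‖f ((y0 c V θ : ℝ) : ℂ)‖ := norm_pos_iff.2 (f_ne_zero he hf hg)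
      have h5 := Real.log_lt_log h4 (hf.lt _ h1.ne' h3)
      show -LU f ((y0 c V θ : ℝ) : ℂ) ≠ 0
      unfold LU
      linarith
    refine lt_of_lt_of_le ?_ (measure_mono hUs)
    rw [Measure.restrict_apply hUm, Set.inter_eq_left.2 hUb, hU, Real.volume_pi_Ioo,
      pos_iff_ne_zero, Finset.prod_ne_zero_iff]
    intro i _
    rw [sub_zero]
    exact (ENNReal.ofReal_pos.2 hδ0).ne'
  rw [MeasureTheory.integral_neg] at hpos
  linarith

end P4a177c
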