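import Pool.Agent.Lib.P4a177c.Ana
import Pool.Agent.Lib.P4a177c.YcC
import Pool.Agent.Lib.P4a177t.TorusEx

/-!
# MODULE P4a177c.TorusC: the torus (est. 1 h; adapt `Lib/P4a177o/TorusExO.lean`)

PROOF. Coordinates `yv θ = Fin.cons (f (yc c V ε θ)) fun j => pt ε (θ j)`. `crv^2 - 1 = crv * gg ≠ 0`
(`gg_ne_zero`, `crv_ne_zero`), `pt (1 - pt) = -crv^2/(crv^2 - 1)^2 = -1/gg^2` (`pt_mul`).
On the hypersurface: `RootSpec.eqn`, `yc_sq`: `N * (y^2 e^e/(e+1)^(e+1)) * ∏ (-1/gg_j^2)^(c_j) =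
N / V * e^e/(e+1)^(e+1) * ∏ ((-gg_j^2/4) (-1/gg_j^2))^(c_j) = N / V * e^e/(e+1)^(e+1) * 4^(-∑ c_j) = 1`
by `hVN : V * Nc c e = N` (`N ≠ 0` as `V > 0`, `Nc > 0` for `1 ≤ e`).
`γ.emb θ = lift (yv θ) (on θ)`; `C²`: every element of the coordinate ring is the class of a
polynomial (`Ideal.Quotient.mk_surjective`), `lift_mk`, `P4a177t.TorusExAux.contDiff_aeval`; the
coordinates are `C²` (`RootSpec.contDiffAt` composed with `yc_contDiff`, `crv_contDiff`);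
periodicity: `yc_periodic`, `crv_periodic` and: `lift` only depends on the coordinates
(both sides are `aeval` of equal points).
-/

set_option autoImplicit false

namespace P4a177c

open P4a177h P4a177o Function MeasureTheory
open scoped Real

namespace TorusCAux

theorem crv_sq_sub_one (ε t : ℝ) : crv ε t ^ 2 - 1 = crv ε t * gg ε t := by
  unfold gg
  rw [mul_sub, mul_inv_cancel₀ (crv_ne_zero ε t)]
  ring

end TorusCAux

open TorusCAux

theorem crv_sq_sub_one_ne {ε : ℝ} (h0 : 0 < ε) (t : ℝ) : crv ε t ^ 2 - 1 ≠ 0 := by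
  rw [crv_sq_sub_one]
  exact mul_ne_zero (crv_ne_zero ε t) (gg_ne_zero h0 t)

theorem pt_mul {ε : ℝ} (h0 : 0 < ε) (t : ℝ) : pt ε t * (1 - pt ε t) = -1 / gg ε t ^ 2 := by
  have h1 := crv_ne_zero ε t
  have h2 := gg_ne_zero h0 t
  have h3 := crv_sq_sub_one ε t
  unfold pt
  have h4 : 1 - crv ε t ^ 2 / (crv ε t ^ 2 - 1) = -1 / (crv ε t ^ 2 - 1) := by
    have := crv_sq_sub_one_ne h0 t
    field_simp
    ring
  rw [h4, h3]
  field_simp

/-- `x / (1 - x) = -z^2` for `x = pt ε t`, `z = crv ε t` -/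
theorem pt_div {ε : ℝ} (h0 : 0 < ε) (t : ℝ) : pt ε t / (1 - pt ε t) = -(crv ε t) ^ 2 := by
  have h1 := crv_sq_sub_one_ne h0 t
  unfold pt
  have h4 : 1 - crv ε t ^ 2 / (crv ε t ^ 2 - 1) = -1 / (crv ε t ^ 2 - 1) := by
    field_simp
    ring
  rw [h4]
  field_simp

namespace TorusCAux

/-- the coordinates of the point with the parameter `θ` -/
noncomputable def yv {m : ℕ} (c : Fin m → ℕ) (V ε : ℝ) (f : ℂ → ℂ) (θ : Fin m → ℝ) :
    Fin (m + 1) → ℂ :=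
  Fin.cons (f (yc c V ε θ)) fun j => pt ε (θ j)

theorem yv_on {m : ℕ} {c : Fin m → ℕ} {e N : ℕ} (he : 1 ≤ e) {V ε : ℝ} {f : ℂ → ℂ}
    (hf : RootSpec e f) (hV : 0 < V) (hVN : V * Nc c e = N) (h0 : 0 < ε)
    (hg : ∀ θ : Fin m → ℝ, Good (yc c V ε θ)) (θ : Fin m → ℝ) : On c e N (yv c V ε f θ) := by
  unfold On expr
  have h1 : yv c V ε f θ 0 * (1 - yv c V ε f θ 0) ^ e =
      (∏ j, (-(gg ε (θ j)) ^ 2 / 4) ^ c j) / (V : ℂ) *
        ((e : ℂ) ^ e / ((e : ℂ) + 1) ^ (e + 1)) := by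
    rw [← yc_sq c hV ε θ]
    exact hf.eqn _ (hg θ)
  have h2 : ∀ j : Fin m, yv c V ε f θ j.succ * (1 - yv c V ε f θ j.succ) =
      -1 / gg ε (θ j) ^ 2 := fun j => pt_mul h0 (θ j)
  have h3 : (∏ j, (-(gg ε (θ j)) ^ 2 / 4) ^ c j) * ∏ j, (-1 / gg ε (θ j) ^ 2) ^ c j =
      ((1 : ℂ) / 4) ^ (∑ j, c j) := by
    rw [← Finset.prod_mul_distrib, ← Finset.prod_pow_eq_pow_sum]
    refine Finset.prod_congr rfl fun j _ => ?_
    rw [← mul_pow]
    congr 1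
    have := gg_ne_zero h0 (θ j)
    field_simp
  have h6 : ∏ j : Fin m, (yv c V ε f θ j.succ * (1 - yv c V ε f θ j.succ)) ^ c j =
      ∏ j, (-1 / gg ε (θ j) ^ 2) ^ c j := Finset.prod_congr rfl fun j _ => by rw [h2 j]
  rw [h1, h6]
  have he0 : (e : ℂ) ≠ 0 := by exact_mod_cast (by omega : e ≠ 0)
  have he1 : (e : ℂ) + 1 ≠ 0 := by exact_mod_cast (by omega : e + 1 ≠ 0)
  have hVc : (V : ℂ) ≠ 0 := by exact_mod_cast hV.ne'
  have hNN : (V : ℂ) * (4 ^ (∑ j, c j) * ((e : ℂ) + 1) ^ (e + 1) / (e : ℂ) ^ e) = N := by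
    have := congrArg (fun r : ℝ => (r : ℂ)) hVN
    unfold Nc at this
    push_cast at this
    exact this
  rw [← hNN]
  have h5 : (V : ℂ) * (4 ^ (∑ j, c j) * ((e : ℂ) + 1) ^ (e + 1) / (e : ℂ) ^ e) *
      ((∏ j, (-(gg ε (θ j)) ^ 2 / 4) ^ c j) / (V : ℂ) *
        ((e : ℂ) ^ e / ((e : ℂ) + 1) ^ (e + 1)) * ∏ j, (-1 / gg ε (θ j) ^ 2) ^ c j) =
      4 ^ (∑ j, c j) *
        ((∏ j, (-(gg ε (θ j)) ^ 2 / 4) ^ c j) * ∏ j, (-1 / gg ε (θ j) ^ 2) ^ c j) := by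
    field_simp
  rw [h5, h3, ← mul_pow]
  norm_num

theorem contDiff_pt {ε : ℝ} (h0 : 0 < ε) : ContDiff ℝ 2 (pt ε) := by
  unfold pt
  simp only [div_eq_mul_inv]
  exact ((crv_contDiff ε).pow 2).mul
    ((((crv_contDiff ε).pow 2).sub contDiff_const).inv fun t => crv_sq_sub_one_ne h0 t)

theorem contDiff_yv {m : ℕ} {c : Fin m → ℕ} {e : ℕ} {V ε : ℝ} {f : ℂ → ℂ}
    (hf : RootSpec e f) (h0 : 0 < ε) (hg : ∀ θ : Fin m → ℝ, Good (yc c V ε θ))
    (i : Fin (m + 1)) : ContDiff ℝ 2 fun θ : Fin m → ℝ => yv c V ε f θ i := by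
  refine Fin.cases ?_ (fun j => ?_) i
  · rw [contDiff_iff_contDiffAt]
    intro θ
    exact (hf.contDiffAt _ (hg θ)).comp θ (yc_contDiff c V ε).contDiffAt
  · exact (contDiff_pt h0).comp (contDiff_apply ℝ ℝ j)

theorem yv_periodic {m : ℕ} (c : Fin m → ℕ) (V ε : ℝ) (f : ℂ → ℂ) (θ : Fin m → ℝ) (l : Fin m) :
    yv c V ε f (update θ l (θ l + 2 * π)) = yv c V ε f θ := by
  funext i
  refine Fin.cases ?_ (fun j => ?_) i
  · show f (yc c V ε (update θ l (θ l + 2 * π))) = f (yc c V ε θ)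
    rw [yc_periodic]
  · show pt ε (update θ l (θ l + 2 * π) j) = pt ε (θ j)
    rcases eq_or_ne j l with rfl | hj
    · rw [update_self]
      unfold pt
      rw [crv_periodic]
    · rw [update_of_ne hj]

/-- `lift` only depends on the coordinates. -/
theorem lift_congr {m : ℕ} {c : Fin m → ℕ} {e N : ℕ} {B : Type*} [CommRing B] [Algebra ℚ B]
    {y y' : Fin (m + 1) → B} (h : On c e N y) (h' : On c e N y') (he : y = y') :
    lift y h = lift y' h' := by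
  subst he
  rfl

end TorusCAux

theorem exists_torusc {m : ℕ} {c : Fin m → ℕ} {e N : ℕ} (he : 1 ≤ e) {V ε : ℝ} {f : ℂ → ℂ}
    (hf : RootSpec e f) (hV : 0 < V) (hVN : V * Nc c e = N) (h0 : 0 < ε)
    (hg : ∀ θ : Fin m → ℝ, Good (yc c V ε θ)) : ∃ γ : Torus m (CoordRing c e N),
      (∀ (j : Fin m) (θ : Fin m → ℝ), γ.emb θ (coord c e N j.succ) = pt ε (θ j)) ∧
      ∀ θ : Fin m → ℝ, γ.emb θ (coord c e N 0) = f (yc c V ε θ) := by
  have hon := yv_on he hf hV hVN h0 hg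
  refine ⟨⟨fun θ => lift (yv c V ε f θ) (hon θ), ?_, ?_⟩, ?_, ?_⟩
  · intro g
    obtain ⟨p, rfl⟩ := Ideal.Quotient.mk_surjective g
    exact P4a177t.TorusExAux.contDiff_aeval (contDiff_yv hf h0 hg) p
  · intro g θ l
    show lift (yv c V ε f (update θ l (θ l + 2 * π))) _ g = lift (yv c V ε f θ) _ g
    rw [lift_congr (hon _) (hon θ) (yv_periodic c V ε f θ l)]
  · intro j θ
    exact lift_coord _ (hon θ) _
  · intro θ
    exact lift_coord _ (hon θ) _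

end P4a177c
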