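import Pool.Agent.Lib.P4a177c.Ana
import Pool.Agent.Lib.P4a177c.YcC
import Pool.Agent.Lib.P4a177c.TorusC
import Pool.Agent.Lib.P4a177o.Ibp
import Pool.Agent.Lib.P4a177t.TorReg

/-!
# MODULE P4a177c.RegC: the regulator of `{u_i}` along the torus (est. 2 h; adapt
# `Lib/P4a177o/RegXO.lean`)

PROOF. `hrow_uu`: the row of `u_(j+1)`, with value `-(crv ε (θ j))^2` (`map_uu`, `pt_div`), is
`2 tf ε (θ j)` at `l = j` and zero otherwise (`crv_hasDerivAt`; use the `private` theorem `dlog_one` of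
`RegXO.lean`: copy it). `regFun_diag` with `a = uu N hc he`, `f j = fun t => 2 * tf ε t`:
`regFun = ∫ log ‖u_0‖ re ∏ (2 tf) - ∑_k ∫ log ‖u_(k+1)‖ (dlogRow u_0 θ k).re * CC ε k θ`.
`log ‖u_0‖ = LU f (yc …)` (`map_uu`, `norm_div`, `Real.log_div`), `log ‖u_(k+1)‖ = 2 aa ε (θ k)`
(`log_norm_crv`). From `val_prod` (logarithmic derivatives, `dlogRow_mul`, `P4a177s.dlogRow_prod'`,
powers; `N` is a constant, `TorRegAux.dlogRow_intCast`):
`dlogRow x_0 = - e dlogRow v_0 - ∑_j c_j dlogRow (x_(j+1) v_(j+1))`, where `v_i = 1 - x_i = vu N hc he i`, and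
`x_(j+1) v_(j+1)` has the value `-1 / gg^2` (`pt_mul`), so (derivative of `gg`: `i tf (z + 1/z)`) its row is
`-2 lg ε (θ j)` at `l = j` and zero otherwise. Hence
`dlogRow u_0 θ k = 2 c_k lg ε (θ k) - (e + 1) dlogRow v_0 θ k`. `v_0` has the value
`1 - f (yc …)`, in the slit plane (`RootSpec.slit`). `P4a177o.ibp` with `b = v_0`, `g = aa ε`, `g' = da ε`,
`C = CC ε k` (continuous, independent of `θ k`): `∫ aa (dlogRow v_0 θ k).re CC = - ∫ da im (log v_0) CC`.
The sum gives the formula.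
-/

set_option autoImplicit false

namespace P4a177c

open P4a177h P4a177o P4a177t Function MeasureTheory
open scoped Real

namespace RegCAux

theorem dlog_one {m : ℕ} {R : Type} [CommRing R] (γ : Torus m R) (v : Rˣ) (j : Fin m)
    (F F' : ℝ → ℂ) (hF : ∀ t, HasDerivAt F (F' t) t) (hv : ∀ θ, γ.emb θ (v : R) = F (θ j))
    (θ : Fin m → ℝ) (l : Fin m) :
    dlogRow γ v θ l = if l = j then -Complex.I * (F' (θ j) / F (θ j)) else 0 := by
  have h1 : HasFDerivAt (fun θ : Fin m → ℝ => θ j)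
      (ContinuousLinearMap.proj (R := ℝ) (φ := fun _ : Fin m => ℝ) j) θ :=
    (ContinuousLinearMap.proj (R := ℝ) (φ := fun _ : Fin m => ℝ) j).hasFDerivAt
  have h2 := (hF (θ j)).hasFDerivAt.comp θ h1
  have e : (fun θ => γ.emb θ (v : R)) = F ∘ fun θ : Fin m → ℝ => θ j := funext hv
  unfold dlogRow
  rw [e, h2.fderiv, hv]
  by_cases hl : l = j
  · subst hl
    simp
  · simp [hl]

theorem dlogRow_pow {d : ℕ} {R : Type*} [CommRing R] (γ : Torus d R) (v : Rˣ) (n : ℕ)
    (θ : Fin d → ℝ) : dlogRow γ (v ^ n) θ = (n : ℂ) • dlogRow γ v θ := by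
  induction n with
  | zero =>
    rw [pow_zero, P4a177s.dlogRow_one']
    simp
  | succ n ih =>
    rw [pow_succ, dlogRow_mul, ih]
    push_cast
    rw [add_smul, one_smul]

variable {m : ℕ} {c : Fin m → ℕ} {e N : ℕ}

/-- the row of `u_(j+1)` -/
theorem hrow_uu (hc : ∀ j, 1 ≤ c j) (he : 1 ≤ e) {ε : ℝ} (h0 : 0 < ε)
    (γ : Torus m (CoordRing c e N))
    (hγ : ∀ (j : Fin m) (θ : Fin m → ℝ), γ.emb θ (coord c e N j.succ) = pt ε (θ j))
    (j : Fin m) (θ : Fin m → ℝ) (l : Fin m) :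
    dlogRow γ (uu N hc he j.succ) θ l = if l = j then (2 : ℂ) * tf ε (θ j) else 0 := by
  have hd : ∀ t, HasDerivAt (fun t => -(crv ε t) ^ 2)
      (-(2 * crv ε t * (Complex.I * tf ε t * crv ε t))) t := by
    intro t
    refine (((crv_hasDerivAt ε t).pow 2).neg).congr_deriv ?_
    norm_num
  have hv : ∀ θ, γ.emb θ (uu N hc he j.succ : CoordRing c e N) = -(crv ε (θ j)) ^ 2 := by
    intro θ
    rw [map_uu (γ.emb θ) hc he, hγ, pt_div h0]
  rw [dlog_one γ _ j _ _ hd hv θ l]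
  refine if_congr Iff.rfl ?_ rfl
  have h := crv_ne_zero ε (θ j)
  field_simp
  rw [Complex.I_sq]
  ring

/-- the row of `x_(j+1) (1 - x_(j+1))` -/
theorem hrow_xv (hc : ∀ j, 1 ≤ c j) (he : 1 ≤ e) {ε : ℝ} (h0 : 0 < ε)
    (γ : Torus m (CoordRing c e N))
    (hγ : ∀ (j : Fin m) (θ : Fin m → ℝ), γ.emb θ (coord c e N j.succ) = pt ε (θ j))
    (j : Fin m) (θ : Fin m → ℝ) (l : Fin m) :
    dlogRow γ (xu N hc e j.succ * vu N hc he j.succ) θ l =
      if l = j then -(2 * lg ε (θ j)) else 0 := by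
  have hgd : ∀ t, HasDerivAt (gg ε)
      (Complex.I * tf ε t * (crv ε t + (crv ε t)⁻¹)) t := by
    intro t
    have h1 := crv_ne_zero ε t
    have h2 := (crv_hasDerivAt ε t).sub ((crv_hasDerivAt ε t).inv h1)
    refine h2.congr_deriv ?_
    field_simp
    ring
  have hd : ∀ t, HasDerivAt (fun t => -1 / gg ε t ^ 2)
      (2 * (Complex.I * tf ε t * (crv ε t + (crv ε t)⁻¹)) / gg ε t ^ 3) t := by
    intro t
    have h1 := gg_ne_zero h0 t
    have h2 := (((hgd t).pow 2).inv (pow_ne_zero 2 h1)).neg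
    have h3 : (fun t => -1 / gg ε t ^ 2) = fun t => -(gg ε t ^ 2)⁻¹ := by
      funext t
      rw [neg_div, one_div]
    rw [h3]
    refine h2.congr_deriv ?_
    simp only [Pi.pow_apply]
    field_simp
    norm_num
    ring
  have hv : ∀ θ, γ.emb θ ((xu N hc e j.succ * vu N hc he j.succ : (CoordRing c e N)ˣ) :
      CoordRing c e N) = -1 / gg ε (θ j) ^ 2 := by
    intro θ
    rw [Units.val_mul, xu_val, vu_val, map_mul, map_sub, map_one, hγ, pt_mul h0]
  rw [dlog_one γ _ j _ _ hd hv θ l]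
  refine if_congr Iff.rfl ?_ rfl
  have h1 := gg_ne_zero h0 (θ j)
  unfold lg
  generalize crv ε (θ j) + (crv ε (θ j))⁻¹ = s
  field_simp
  rw [Complex.I_sq]
  ring

/-- the row of `u_0` -/
theorem hrow_u0 (hc : ∀ j, 1 ≤ c j) (he : 1 ≤ e) {ε : ℝ} (h0 : 0 < ε)
    (γ : Torus m (CoordRing c e N))
    (hγ : ∀ (j : Fin m) (θ : Fin m → ℝ), γ.emb θ (coord c e N j.succ) = pt ε (θ j))
    (θ : Fin m → ℝ) (k : Fin m) :
    dlogRow γ (uu N hc he 0) θ k =
      2 * c k * lg ε (θ k) - (e + 1) * dlogRow γ (vu N hc he 0) θ k := by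
  set P : (CoordRing c e N)ˣ := xu N hc e 0 * vu N hc he 0 ^ e *
      ∏ j : Fin m, (xu N hc e j.succ * vu N hc he j.succ) ^ c j with hP
  have hN : ((P⁻¹ : (CoordRing c e N)ˣ) : CoordRing c e N) = ((N : ℤ) : CoordRing c e N) := by
    have h1 := val_prod (N := N) hc he
    rw [← hP] at h1
    rw [Units.inv_eq_of_mul_eq_one_left h1]
    simp
  have h1 : dlogRow γ P⁻¹ θ = 0 := TorRegAux.dlogRow_intCast γ P⁻¹ (N : ℤ) hN θ
  rw [TorRegAux.dlogRow_inv, neg_eq_zero, hP, dlogRow_mul, dlogRow_mul, P4a177s.dlogRow_prod',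
    dlogRow_pow] at h1
  have h2 := congrFun h1 k
  simp only [Pi.add_apply, Pi.smul_apply, Finset.sum_apply, dlogRow_pow, Pi.zero_apply,
    smul_eq_mul, hrow_xv hc he h0 γ hγ] at h2
  have h3 : ∑ j : Fin m, (c j : ℂ) * (if k = j then -(2 * lg ε (θ j)) else 0) =
      -(2 * c k * lg ε (θ k)) := by
    simp only [mul_ite, mul_zero]
    rw [Finset.sum_ite_eq, if_pos (Finset.mem_univ _)]
    ring
  rw [h3] at h2
  have h4 : dlogRow γ (uu N hc he 0) θ k =
      dlogRow γ (xu N hc e 0) θ k - dlogRow γ (vu N hc he 0) θ k := by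
    unfold uu
    rw [div_eq_mul_inv, dlogRow_mul, TorRegAux.dlogRow_inv]
    rw [Pi.add_apply, Pi.neg_apply, sub_eq_add_neg]
  rw [h4]
  linear_combination h2

end RegCAux

open RegCAux

theorem reg_c {m : ℕ} {c : Fin m → ℕ} (hc : ∀ j, 1 ≤ c j) {e N : ℕ} (he : 1 ≤ e) {f : ℂ → ℂ}
    (hf : RootSpec e f) {V ε : ℝ} (h0 : 0 < ε) (hg : ∀ θ : Fin m → ℝ, Good (yc c V ε θ))
    (γ : Torus m (CoordRing c e N))
    (hγ : ∀ (j : Fin m) (θ : Fin m → ℝ), γ.emb θ (coord c e N j.succ) = pt ε (θ j))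
    (hγ0 : ∀ θ : Fin m → ℝ, γ.emb θ (coord c e N 0) = f (yc c V ε θ)) :
    regFun γ (uu N hc he) = RM f c V ε - ∑ k : Fin m, RE f c e V ε k := by
  -- the unit `1 - x_0`
  set b : (CoordRing c e N)ˣ := vu N hc he 0 with hb
  have hbval : ∀ θ, γ.emb θ (b : CoordRing c e N) = 1 - f (yc c V ε θ) := by
    intro θ
    rw [hb, vu_val, map_sub, map_one, hγ0]
  have hslit : ∀ θ, γ.emb θ (b : CoordRing c e N) ∈ Complex.slitPlane := by
    intro θ
    rw [hbval]
    exact hf.slit _ (hg θ)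
  have hlog : ∀ θ, Complex.log (γ.emb θ (b : CoordRing c e N)) =
      Complex.log (1 - f (yc c V ε θ)) := by
    intro θ
    rw [hbval]
  have hLU : ∀ θ, Real.log ‖γ.emb θ (uu N hc he 0 : CoordRing c e N)‖ = LU f (yc c V ε θ) := by
    intro θ
    have h1 := emb_ne_zero γ (xu N hc e 0) θ
    have h2 := emb_ne_zero γ (vu N hc he 0) θ
    rw [xu_val, hγ0] at h1
    rw [vu_val, map_sub, map_one, hγ0] at h2
    rw [map_uu (γ.emb θ) hc he, hγ0, norm_div,
      Real.log_div (norm_ne_zero_iff.2 h1) (norm_ne_zero_iff.2 h2)]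
    rfl
  have hLk : ∀ (k : Fin m) (θ : Fin m → ℝ),
      Real.log ‖γ.emb θ (uu N hc he k.succ : CoordRing c e N)‖ = 2 * aa ε (θ k) := by
    intro k θ
    rw [map_uu (γ.emb θ) hc he, hγ, pt_div h0, norm_neg, norm_pow, Real.log_pow, log_norm_crv]
    norm_num
  have hu0 : ∀ (θ : Fin m → ℝ) (k : Fin m), (dlogRow γ (uu N hc he 0) θ k).re =
      2 * c k * (lg ε (θ k)).re - (e + 1) * (dlogRow γ b θ k).re := by
    intro θ k
    rw [hrow_u0 hc he h0 γ hγ θ k, Complex.sub_re]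
    have e1 : (2 * (c k : ℂ) * lg ε (θ k)).re = 2 * c k * (lg ε (θ k)).re := by
      have : (2 * (c k : ℂ)) = ((2 * c k : ℝ) : ℂ) := by push_cast; ring
      rw [this, Complex.re_ofReal_mul]
    have e2 : (((e : ℂ) + 1) * dlogRow γ b θ k).re = (e + 1) * (dlogRow γ b θ k).re := by
      have : ((e : ℂ) + 1) = ((e + 1 : ℝ) : ℂ) := by push_cast; ring
      rw [this, Complex.re_ofReal_mul]
    rw [e1, e2]
  have hct : ∀ j : Fin m, Continuous fun θ : Fin m → ℝ => (2 : ℂ) * tf ε (θ j) := fun j =>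
    continuous_const.mul ((tf_continuous ε).comp (continuous_apply j))
  have hCc : ∀ k : Fin m, Continuous fun θ : Fin m → ℝ => CC ε k θ := by
    intro k
    unfold CC
    exact (continuous_finsetProd _ fun j _ => Complex.continuous_re.comp (hct j)).mul
      (Complex.continuous_re.comp (continuous_finsetProd _ fun j _ => hct j))
  have hCu : ∀ (k : Fin m) (θ : Fin m → ℝ) (s : ℝ), CC ε k (update θ k s) = CC ε k θ := by
    intro k θ s
    unfold CC
    congr 1
    · refine Finset.prod_congr rfl fun j hj => ?_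
      rw [Finset.mem_filter] at hj
      rw [update_of_ne hj.2.ne]
    · congr 1
      refine Finset.prod_congr rfl fun j hj => ?_
      rw [Finset.mem_filter] at hj
      rw [update_of_ne hj.2.ne']
  rw [regFun_diag γ (uu N hc he) (fun _ t => (2 : ℂ) * tf ε t)
    (fun _ => continuous_const.mul (tf_continuous ε)) (hrow_uu hc he h0 γ hγ)]
  simp only [hLU, hLk]
  unfold RM RE
  congr 1
  refine Finset.sum_congr rfl fun k _ => ?_
  have hibp := ibp γ b hslit k (aa ε) (da ε) (aa_hasDerivAt ε) (da_continuous ε) (aa_periodic ε)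
    (fun θ => CC ε k θ) (hCc k) (hCu k)
  have ca : Continuous fun θ : Fin m → ℝ => aa ε (θ k) :=
    (aa_continuous ε).comp (continuous_apply k)
  have cd : Continuous fun θ : Fin m → ℝ => da ε (θ k) :=
    (da_continuous ε).comp (continuous_apply k)
  have cl : Continuous fun θ : Fin m → ℝ => (lg ε (θ k)).re :=
    Complex.continuous_re.comp ((lg_continuous h0).comp (continuous_apply k))
  have cb : Continuous fun θ : Fin m → ℝ => (dlogRow γ b θ k).re :=
    Complex.continuous_re.comp (dlogRow_continuous γ b k)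
  have cB : Continuous fun θ : Fin m → ℝ => (Complex.log (γ.emb θ (b : CoordRing c e N))).im :=
    Complex.continuous_im.comp (slit_contDiff γ b hslit).continuous
  have c1 : Continuous fun θ : Fin m → ℝ => aa ε (θ k) * (dlogRow γ b θ k).re * CC ε k θ :=
    (ca.mul cb).mul (hCc k)
  have c2 : Continuous fun θ : Fin m → ℝ => aa ε (θ k) * (lg ε (θ k)).re * CC ε k θ :=
    (ca.mul cl).mul (hCc k)
  have c3 : Continuous fun θ : Fin m → ℝ =>
      da ε (θ k) * (Complex.log (γ.emb θ (b : CoordRing c e N))).im * CC ε k θ :=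
    (cd.mul cB).mul (hCc k)
  have e1 : (∫ θ in box m, 2 * aa ε (θ k) * (dlogRow γ (uu N hc he 0) θ k).re *
      ((∏ j with j < k, ((2 : ℂ) * tf ε (θ j)).re) *
        (∏ j with k < j, (2 : ℂ) * tf ε (θ j)).re)) =
      4 * c k * (∫ θ in box m, aa ε (θ k) * (lg ε (θ k)).re * CC ε k θ) -
      2 * (e + 1) * ∫ θ in box m, aa ε (θ k) * (dlogRow γ b θ k).re * CC ε k θ := by
    rw [← integral_const_mul, ← integral_const_mul,
      ← integral_sub ((RegLog_box_int c2).const_mul _) ((RegLog_box_int c1).const_mul _)]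
    congr 1
    funext θ
    rw [hu0]
    unfold CC
    ring
  have e2 : (∫ θ in box m, (4 * c k * (aa ε (θ k) * (lg ε (θ k)).re) +
      2 * (e + 1) * (da ε (θ k) * (Complex.log (1 - f (yc c V ε θ))).im)) * CC ε k θ) =
      4 * c k * (∫ θ in box m, aa ε (θ k) * (lg ε (θ k)).re * CC ε k θ) +
      2 * (e + 1) * ∫ θ in box m,
        da ε (θ k) * (Complex.log (γ.emb θ (b : CoordRing c e N))).im * CC ε k θ := by
    rw [← integral_const_mul, ← integral_const_mul,
      ← integral_add ((RegLog_box_int c2).const_mul _) ((RegLog_box_int c3).const_mul _)]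
    congr 1
    funext θ
    rw [hlog]
    ring
  rw [e1, e2, hibp]
  ring

end P4a177c
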