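import Pool.Agent.Lib.P4a177c.SqC

/-!
# MODULE P4a177c.Root1C: the exponent `e = 1` (est. 0.7 h)

PROOF. `rt1 y = (1 - w) / 2`, `1 - rt1 y = (1 + w) / 2`, `w = sq y`, `w^2 = 1 - y^2` (`sq_sq`):
`rt1 (1 - rt1) = (1 - w^2)/4 = y^2/4`, and `e^e/(e+1)^(e+1) = 1/4` for `e = 1`. `slit`, `norm`:
`one_add_sq_slit`, `norm_one_add_sq`. `contDiffAt`: `sq_contDiffAt`.
Real `t`: `t^2 < 1`: `w = √(1 - t^2) > 0` (`sq_real_lt`), so `‖1 - w‖ < ‖1 + w‖`.
`t^2 > 1`: `w = -i √(t^2 - 1)` (`sq_real_gt`), `‖1 - w‖ = ‖1 + w‖`.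
-/

set_option autoImplicit false

namespace P4a177c

open P4a177h P4a177o Function MeasureTheory
open scoped Real

private theorem one_sub_rt1 (y : ℂ) : 1 - rt1 y = (1 + sq y) / 2 := by
  unfold rt1
  ring

private theorem rt1_lt {t : ℝ} (h1 : t ^ 2 < 1) : ‖rt1 t‖ < ‖1 - rt1 t‖ := by
  have hw : 0 < √(1 - t ^ 2) := Real.sqrt_pos.2 (by linarith)
  rw [one_sub_rt1]
  unfold rt1
  rw [sq_real_lt h1, norm_div, norm_div]
  refine div_lt_div_of_pos_right ?_ (by norm_num)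
  have e1 : (1 : ℂ) - ((√(1 - t ^ 2) : ℝ) : ℂ) = ((1 - √(1 - t ^ 2) : ℝ) : ℂ) := by push_cast; ring
  have e2 : (1 : ℂ) + ((√(1 - t ^ 2) : ℝ) : ℂ) = ((1 + √(1 - t ^ 2) : ℝ) : ℂ) := by push_cast; ring
  rw [e1, e2, Complex.norm_real, Complex.norm_real, Real.norm_eq_abs, Real.norm_eq_abs,
    abs_of_pos (by linarith : 0 < 1 + √(1 - t ^ 2)), abs_lt]
  constructor <;> linarith

theorem rootSpec_one : RootSpec 1 rt1 := by
  refine ⟨fun y h => ?_, fun y h => ?_, fun y h => ?_, fun y h => ?_, fun t h0 h1 => ?_,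
    fun t h0 h1 => rt1_lt h1⟩
  · exact (contDiffAt_const.sub (sq_contDiffAt h)).div_const 2
  · rw [one_sub_rt1, pow_one]
    unfold rt1
    have h2 := sq_sq h
    norm_num
    linear_combination (-1 / 4) * h2
  · rw [one_sub_rt1]
    exact one_add_sq_slit h
  · rw [one_sub_rt1, norm_div]
    have h2 := norm_one_add_sq h
    rw [Complex.norm_ofNat]
    linarith
  · rcases lt_or_gt_of_ne h1 with h | h
    · exact (rt1_lt h).le
    · rw [one_sub_rt1]
      unfold rt1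
      rw [sq_real_gt h, norm_div, norm_div]
      refine div_le_div_of_nonneg_right (le_of_eq ?_) (by norm_num)
      have e1 : (1 : ℂ) - -((√(t ^ 2 - 1) : ℝ) : ℂ) * Complex.I =
          (starRingEnd ℂ) (1 + -((√(t ^ 2 - 1) : ℝ) : ℂ) * Complex.I) := by
        rw [map_add, map_one, map_mul, map_neg, Complex.conj_ofReal, Complex.conj_I]
        ring
      rw [e1, Complex.norm_conj]

end P4a177c
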