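import Pool.Agent.Lib.P4a177c.Root2a

/-!
# MODULE P4a177c.Root2b: the exponent `e = 2`, real values and assembly (est. 0.8 h)

PROOF. `rt2_lt`: for real `t ≠ 0`, `t^2 ≠ 1`, `re (BB t) = re (sq t) ≥ 0` (`sq_real_lt`, `sq_real_gt`), so
`|arg (BB t)| ≤ π/2` (`Complex.abs_arg_le_pi_div_two_iff`), `α = 2/3 arg (BB t)`, `|α| ≤ π/3`,
`cos α ≥ 1/2`. `q = qq t = ρ (cos α + i sin α)`, `ρ = |q| > 0`, `r = q + q⁻¹`,
`re r = (ρ + 1/ρ) cos α ≥ 2 * (1/2) = 1`. `rt2 t = (2 - r)/3`, `1 - rt2 t = (1 + r)/3`,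
`‖1 + r‖^2 - ‖2 - r‖^2 = 6 re r - 3 > 0`.
`rootSpec_two`: `eqn`: `rt2_eqn` and `2^2/(2+1)^(2+1) = 4/27`; `slit`, `norm`: `rt2_re`
(`re > 0`; `1/4 ≤ 1/3 ≤ re ≤ ‖.‖`); `contDiffAt`: `rt2_contDiffAt`; `le`, `lt`: `rt2_lt`.
-/

set_option autoImplicit false

namespace P4a177c

open P4a177h P4a177o Function MeasureTheory
open scoped Real

theorem Root2bAux.re_BB {t : ℝ} (h1 : t ^ 2 ≠ 1) : 0 ≤ (BB (t : ℂ)).re := by
  have e1 : (BB (t : ℂ)).re = (sq (t : ℂ)).re := by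
    unfold BB
    rw [Complex.add_re, Complex.mul_re, Complex.I_re, Complex.I_im, Complex.ofReal_re,
      Complex.ofReal_im]
    ring
  rw [e1]
  rcases lt_or_gt_of_ne h1 with h | h
  · rw [sq_real_lt h, Complex.ofReal_re]
    exact Real.sqrt_nonneg _
  · rw [sq_real_gt h]
    simp

theorem Root2bAux.re_ge {t : ℝ} (h1 : t ^ 2 ≠ 1) : 1 ≤ (qq (t : ℂ) + (qq (t : ℂ))⁻¹).re := by
  have hpi := Real.pi_pos
  have h2 : |Complex.arg (BB (t : ℂ))| ≤ π / 2 :=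
    Complex.abs_arg_le_pi_div_two_iff.2 (Root2bAux.re_BB h1)
  obtain ⟨a, ha⟩ : ∃ a : ℂ, a = 2 / 3 * Complex.log (BB (t : ℂ)) := ⟨_, rfl⟩
  have h3 : a.im = 2 / 3 * Complex.arg (BB (t : ℂ)) := by
    have e : (2 / 3 * Complex.log (BB (t : ℂ)) : ℂ) =
        ((2 / 3 : ℝ) : ℂ) * Complex.log (BB (t : ℂ)) := by
      push_cast
      ring
    rw [ha, e, Complex.im_ofReal_mul, Complex.log_im]
  have h4 : |a.im| ≤ π / 3 := by
    rw [h3, abs_mul, abs_of_pos (by norm_num : (0 : ℝ) < 2 / 3)]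
    linarith
  have h5 : 1 / 2 ≤ Real.cos a.im := by
    rw [← Real.cos_pi_div_three, ← Real.cos_abs a.im]
    exact Real.cos_le_cos_of_nonneg_of_le_pi (abs_nonneg _) (by linarith) h4
  have hq : qq (t : ℂ) = Complex.exp a := by
    rw [ha]
    rfl
  rw [hq, ← Complex.exp_neg, Complex.add_re, Complex.exp_re, Complex.exp_re, Complex.neg_re,
    Complex.neg_im, Real.cos_neg, ← add_mul]
  have h6 : 2 ≤ Real.exp a.re + Real.exp (-a.re) := by
    have h7 := Real.exp_pos a.re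
    have h8 : Real.exp a.re * Real.exp (-a.re) = 1 := by
      rw [← Real.exp_add, add_neg_cancel, Real.exp_zero]
    have h9 := Real.exp_pos (-a.re)
    nlinarith [sq_nonneg (Real.exp a.re - Real.exp (-a.re)),
      sq_nonneg (Real.exp a.re + Real.exp (-a.re) - 2)]
  nlinarith

theorem rt2_lt {t : ℝ} (h0 : t ≠ 0) (h1 : t ^ 2 ≠ 1) : ‖rt2 t‖ < ‖1 - rt2 t‖ := by
  have h2 := Root2bAux.re_ge h1
  obtain ⟨r, hr⟩ : ∃ r : ℂ, r = qq (t : ℂ) + (qq (t : ℂ))⁻¹ := ⟨_, rfl⟩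
  rw [← hr] at h2
  have e1 : rt2 (t : ℂ) = (2 - r) / 3 := by
    rw [hr]
    unfold rt2
    ring
  have e2 : 1 - rt2 (t : ℂ) = (1 + r) / 3 := by
    rw [e1]
    ring
  rw [e2, e1, norm_div, norm_div]
  refine div_lt_div_of_pos_right ?_ (by norm_num)
  rw [← pow_lt_pow_iff_left₀ (norm_nonneg _) (norm_nonneg _) two_ne_zero, ← Complex.normSq_eq_norm_sq,
    ← Complex.normSq_eq_norm_sq, Complex.normSq_apply, Complex.normSq_apply]
  simp only [Complex.sub_re, Complex.sub_im, Complex.add_re, Complex.add_im, Complex.one_re,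
    Complex.one_im, Complex.re_ofNat, Complex.im_ofNat]
  nlinarith

theorem rootSpec_two : RootSpec 2 rt2 := by
  refine ⟨fun y h => rt2_contDiffAt h, fun y h => ?_, fun y h => ?_, fun y h => ?_,
    fun t h0 h1 => (rt2_lt h0 h1).le, fun t h0 h1 => rt2_lt h0 h1.ne⟩
  · rw [rt2_eqn h]
    norm_num
  · rw [Complex.mem_slitPlane_iff]
    left
    linarith [rt2_re h]
  · exact (by norm_num : (1 : ℝ) / 4 ≤ 1 / 3).trans ((rt2_re h).trans (Complex.re_le_norm _))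

end P4a177c
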