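import Pool.Agent.Lib.P4a177c.Defs

/-!
# MODULE P4a177c.SmoothC: the hypersurface is smooth (est. 1 h)

PROOF. Let `y` be a point of the hypersurface (`aeval_eqn_eq_zero`, `On`, `expr`) at which all the
partial derivatives vanish. `y_i ≠ 0`, `1 - y_i ≠ 0` (`isUnit_y`, `isUnit_one_sub`). The derivative
with respect to `x_0` of the equation is `N ((1 - y_0)^e - e y_0 (1 - y_0)^(e-1)) ∏ …`
`= N (1 - y_0)^(e-1) (1 - (e + 1) y_0) ∏ …`, so `y_0 = 1/(e+1)`. The one with respect to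
`x_(j+1)` is (everything else) times `c_j (y (1 - y))^(c_j - 1) (1 - 2 y)`, `y = y_(j+1)`, so
`y_(j+1) = 1/2`. (Convenient: for a unit `g`, `∂ g = g * (logarithmic derivative)`; compare
`Lib/P4a177e/SmoothE.lean`, `Lib/P4a177s/Smooth.lean`. `MvPolynomial.pderiv` of a product of a
polynomial in `X_s` alone with a polynomial not containing `X_s`: `Derivation.leibniz`,
`Derivation.leibniz_pow`, `Finset.mul_prod_erase`.) So
`N * (1/(e+1)) * (e/(e+1))^e * ∏ (1/4)^(c_j) = 1`, i.e. `N e^e = 4^(∑ c_j) (e+1)^(e+1)` in `ℂ`, hence in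
`ℕ`, a contradiction.
-/

set_option autoImplicit false

namespace P4a177c

open MvPolynomial

namespace SmoothCAux

/-- a derivation kills a product of elements which it kills -/
theorem der_prod_zero {ι R S : Type*} [CommSemiring R] [CommSemiring S] [Algebra R S]
    (D : Derivation R S S) (f : ι → S) (T : Finset ι) (h : ∀ i ∈ T, D (f i) = 0) :
    D (∏ i ∈ T, f i) = 0 := by
  classical
  induction T using Finset.induction_on with
  | empty => rw [Finset.prod_empty, Derivation.map_one_eq_zero]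
  | insert a T ha ih =>
    rw [Finset.prod_insert ha, Derivation.leibniz, ih fun i hi => h i (Finset.mem_insert_of_mem hi),
      h a (Finset.mem_insert_self a T), smul_zero, smul_zero, add_zero]

variable {n : ℕ}

theorem pd_one_sub (s i : Fin n) :
    pderiv s (1 - X i : MvPolynomial (Fin n) ℚ) = - pderiv s (X i) := by
  rw [map_sub, Derivation.map_one_eq_zero, zero_sub]

/-- the derivative of `(1 - x)^e` -/
theorem pd_pow_one_sub (s i : Fin n) (e : ℕ) :
    pderiv s ((1 - X i : MvPolynomial (Fin n) ℚ) ^ e) =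
      -((e : MvPolynomial (Fin n) ℚ) * (1 - X i) ^ (e - 1) * pderiv s (X i)) := by
  rw [Derivation.leibniz_pow, pd_one_sub, smul_eq_mul, nsmul_eq_mul]
  ring

/-- the derivative of `(x (1 - x))^k` -/
theorem pd_pow_mul (s i : Fin n) (k : ℕ) :
    pderiv s ((X i * (1 - X i) : MvPolynomial (Fin n) ℚ) ^ k) =
      (k : MvPolynomial (Fin n) ℚ) * (X i * (1 - X i)) ^ (k - 1) * (1 - 2 * X i) *
        pderiv s (X i) := by
  rw [Derivation.leibniz_pow, Derivation.leibniz, pd_one_sub, smul_eq_mul, smul_eq_mul,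
    smul_eq_mul, nsmul_eq_mul]
  ring

theorem pd_pow_mul_of_ne (s i : Fin n) (h : i ≠ s) (k : ℕ) :
    pderiv s ((X i * (1 - X i) : MvPolynomial (Fin n) ℚ) ^ k) = 0 := by
  rw [pd_pow_mul, pderiv_X_of_ne h, mul_zero]

end SmoothCAux

open SmoothCAux

variable {m : ℕ} {c : Fin m → ℕ} {e N : ℕ}

namespace SmoothCAux

/-- the derivative of the equation with respect to `x_0` -/
theorem pd_zero (c : Fin m → ℕ) (e N : ℕ) :
    pderiv 0 (eqn c e N) = (N : MvPolynomial (Fin (m + 1)) ℚ) *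
      (((1 - X 0) ^ e - (e : MvPolynomial (Fin (m + 1)) ℚ) * X 0 * (1 - X 0) ^ (e - 1)) *
        ∏ j : Fin m, (X j.succ * (1 - X j.succ)) ^ c j) := by
  have h1 : pderiv (0 : Fin (m + 1))
      (∏ j : Fin m, (X j.succ * (1 - X j.succ) : MvPolynomial (Fin (m + 1)) ℚ) ^ c j) = 0 :=
    der_prod_zero _ _ _ fun j _ => pd_pow_mul_of_ne _ _ (Fin.succ_ne_zero j) _
  have h2 : pderiv (0 : Fin (m + 1)) (N : MvPolynomial (Fin (m + 1)) ℚ) = 0 :=
    Derivation.map_natCast _ N
  unfold eqn expr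
  rw [map_sub, Derivation.map_one_eq_zero, sub_zero, Derivation.leibniz, h2, Derivation.leibniz,
    h1, Derivation.leibniz, pd_pow_one_sub, pderiv_X_self]
  simp only [smul_eq_mul]
  ring

/-- the derivative of the equation with respect to `x_(j+1)` -/
theorem pd_succ (c : Fin m → ℕ) (e N : ℕ) (j : Fin m) :
    pderiv j.succ (eqn c e N) = (N : MvPolynomial (Fin (m + 1)) ℚ) *
      (X 0 * (1 - X 0) ^ e * ((c j : MvPolynomial (Fin (m + 1)) ℚ) *
        (X j.succ * (1 - X j.succ)) ^ (c j - 1) * (1 - 2 * X j.succ)) *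
        ∏ i ∈ Finset.univ.erase j, (X i.succ * (1 - X i.succ)) ^ c i) := by
  classical
  have h1 : pderiv (j.succ : Fin (m + 1)) (∏ i ∈ Finset.univ.erase j,
      (X i.succ * (1 - X i.succ) : MvPolynomial (Fin (m + 1)) ℚ) ^ c i) = 0 :=
    der_prod_zero _ _ _ fun i hi => pd_pow_mul_of_ne _ _
      (fun h => (Finset.ne_of_mem_erase hi) (Fin.succ_injective m h)) _
  have h2 : pderiv (j.succ : Fin (m + 1)) (N : MvPolynomial (Fin (m + 1)) ℚ) = 0 :=
    Derivation.map_natCast _ N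
  have h3 : pderiv (j.succ : Fin (m + 1)) (X 0 : MvPolynomial (Fin (m + 1)) ℚ) = 0 :=
    pderiv_X_of_ne (Fin.succ_ne_zero j).symm
  unfold eqn expr
  rw [← Finset.mul_prod_erase Finset.univ (fun i : Fin m =>
    (X i.succ * (1 - X i.succ) : MvPolynomial (Fin (m + 1)) ℚ) ^ c i) (Finset.mem_univ j)]
  rw [map_sub, Derivation.map_one_eq_zero, sub_zero, Derivation.leibniz, h2, Derivation.leibniz,
    Derivation.leibniz (pderiv (j.succ : Fin (m + 1)))
      ((X j.succ * (1 - X j.succ) : MvPolynomial (Fin (m + 1)) ℚ) ^ c j),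
    h1, pd_pow_mul, pderiv_X_self, Derivation.leibniz, pd_pow_one_sub, h3]
  simp only [smul_eq_mul]
  ring

end SmoothCAux

theorem smooth {m : ℕ} {c : Fin m → ℕ} (hc : ∀ j, 1 ≤ c j) {e N : ℕ} (he : 1 ≤ e)
    (hN : N * e ^ e ≠ 4 ^ (∑ j, c j) * (e + 1) ^ (e + 1)) : Smooth c e N := by
  classical
  intro y hy
  by_contra hcon
  push Not at hcon
  have hon : On c e N y := aeval_eqn_eq_zero.1 hy
  have hy0 : ∀ i, y i ≠ 0 := fun i => (isUnit_y hc hon i).ne_zero
  have hy1 : ∀ i, 1 - y i ≠ 0 := fun i => (isUnit_one_sub hc he hon i).ne_zero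
  have hexp : (N : ℂ) * (y 0 * (1 - y 0) ^ e * ∏ j : Fin m, (y j.succ * (1 - y j.succ)) ^ c j) =
      1 := hon
  have hN0 : (N : ℂ) ≠ 0 := fun h => by rw [h, zero_mul] at hexp; exact zero_ne_one hexp
  have hfac : ∀ j : Fin m, (y j.succ * (1 - y j.succ)) ^ c j ≠ 0 := fun j =>
    pow_ne_zero _ (mul_ne_zero (hy0 _) (hy1 _))
  -- the derivative with respect to `x_0`
  have h0 : ((e : ℂ) + 1) * y 0 = 1 := by
    have h1 := hcon 0
    rw [pd_zero] at h1
    simp only [map_mul, map_sub, map_pow, map_one, map_prod, map_natCast, aeval_X] at h1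
    have h2 := (mul_eq_zero.1 ((mul_eq_zero.1 h1).resolve_left hN0)).resolve_right
      (Finset.prod_ne_zero_iff.2 fun j _ => hfac j)
    have h3 : (1 - y 0) ^ e = (1 - y 0) ^ (e - 1) * (1 - y 0) := by
      rw [← pow_succ, Nat.sub_add_cancel he]
    rw [h3] at h2
    have h4 : (1 - y 0) ^ (e - 1) * (1 - ((e : ℂ) + 1) * y 0) = 0 := by
      rw [← h2]
      ring
    have h5 := (mul_eq_zero.1 h4).resolve_left (pow_ne_zero _ (hy1 0))
    exact (sub_eq_zero.1 h5).symm
  -- the derivatives with respect to the other variables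
  have hs : ∀ j : Fin m, y j.succ * (1 - y j.succ) = 1 / 4 := by
    intro j
    have h1 := hcon j.succ
    rw [pd_succ] at h1
    simp only [map_mul, map_sub, map_pow, map_one, map_prod, map_natCast, map_ofNat,
      aeval_X] at h1
    have h2 := (mul_eq_zero.1 ((mul_eq_zero.1 h1).resolve_left hN0)).resolve_right
      (Finset.prod_ne_zero_iff.2 fun i _ => hfac i)
    have h3 := (mul_eq_zero.1 h2).resolve_left (mul_ne_zero (hy0 0) (pow_ne_zero _ (hy1 0)))
    have hcj : (c j : ℂ) ≠ 0 := by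
      have := hc j
      exact_mod_cast (by omega : c j ≠ 0)
    have h4 := (mul_eq_zero.1 h3).resolve_left
      (mul_ne_zero hcj (pow_ne_zero _ (mul_ne_zero (hy0 _) (hy1 _))))
    have h5 : y j.succ = 1 / 2 := by linear_combination (-1 / 2 : ℂ) * h4
    rw [h5]
    norm_num
  -- the final computation
  have he1 : ((e : ℂ) + 1) ≠ 0 := by exact_mod_cast Nat.succ_ne_zero e
  have h1 : ((e : ℂ) + 1) * (1 - y 0) = e := by linear_combination -h0
  have hprod : ∏ j : Fin m, (y j.succ * (1 - y j.succ)) ^ c j = (1 / 4 : ℂ) ^ (∑ j, c j) := by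
    rw [Finset.prod_congr rfl fun j _ => by rw [hs j], Finset.prod_pow_eq_pow_sum]
  rw [hprod] at hexp
  have h2 : (N : ℂ) * ((e : ℂ) ^ e) = 4 ^ (∑ j, c j) * ((e : ℂ) + 1) ^ (e + 1) := by
    have h3 : (4 : ℂ) ^ (∑ j, c j) * (1 / 4) ^ (∑ j, c j) = 1 := by
      rw [← mul_pow]
      norm_num
    calc (N : ℂ) * ((e : ℂ) ^ e)
        = (N : ℂ) * ((((e : ℂ) + 1) * (1 - y 0)) ^ e) * (((e : ℂ) + 1) * y 0) *
          ((4 : ℂ) ^ (∑ j, c j) * (1 / 4) ^ (∑ j, c j)) := by rw [h1, h0, h3, mul_one, mul_one]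
      _ = 4 ^ (∑ j, c j) * ((e : ℂ) + 1) ^ (e + 1) *
          ((N : ℂ) * (y 0 * (1 - y 0) ^ e * (1 / 4) ^ (∑ j, c j))) := by
            rw [mul_pow, pow_succ]
            ring
      _ = 4 ^ (∑ j, c j) * ((e : ℂ) + 1) ^ (e + 1) := by rw [hexp, mul_one]
  apply hN
  have h3 : ((N * e ^ e : ℕ) : ℂ) = ((4 ^ (∑ j, c j) * (e + 1) ^ (e + 1) : ℕ) : ℂ) := by
    push_cast
    exact h2
  exact_mod_cast h3

end P4a177c
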