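import Pool.Agent.Lib.P4a177c.Defs
import Pool.Agent.Lib.P4a177s.UnramSum
import Pool.Agent.Lib.P4a177s.Integ

/-!
# MODULE P4a177c.ValC: the symbol is integral (est. 1 h; adapt `Lib/P4a177t/Val.lean`)

PROOF. `val_key`: let `v` be a valuation of a field `K` (values in any linearly ordered group with
zero), `y_i ∈ K` with `On c e N y`; `v N ≤ 1` (`P4a177s.v_intCast_le`). If `v (y_i) > 1` for some `i` then
`v (1 - y_i) = v (y_i) > 1` and `1 + y_i / (1 - y_i) = 1 / (1 - y_i)` has valuation `< 1`. Otherwise all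
`v (y_i) ≤ 1` and `v (1 - y_i) ≤ 1`; as `v N * (v y_0 * (v (1 - y_0))^e * ∏ (v y_j * v (1 - y_j))^(c_j)) = 1`
and all the factors are `≤ 1` with exponents `≥ 1`, all the `v (y_i)` and `v (1 - y_i)` are `1`.
`admissible_uu`: entries `uu N hc he i`, blocks `b i = i`; `map_uu`; in the second case
`1 + ∑_{i with i = k} φ (u_i) = 1 + φ (y_k) / (1 - φ (y_k))`.
`unramified_uu`: `P4a177h.map_symb`, then `P4a177h.unramified_symb` (left alternative) if all the
entries are units, otherwise `P4a177s.unramified_of_sum` with `S = {k}` (left alternative), exactly as in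
`P4a177t.unramified_sq`.
-/

set_option autoImplicit false

namespace P4a177c

open P4a177h

namespace ValCAux

theorem one_of_mul {Γ₀ : Type*} [LinearOrderedCommGroupWithZero Γ₀] {x y : Γ₀} (hx : x ≤ 1)
    (hy : y ≤ 1) (h : x * y = 1) : x = 1 ∧ y = 1 := by
  have h1 : x = 1 := by
    apply le_antisymm hx
    calc (1 : Γ₀) = x * y := h.symm
      _ ≤ x * 1 := mul_le_mul_right hy x
      _ = x := mul_one x
  refine ⟨h1, ?_⟩
  rw [h1, one_mul] at h
  exact h

theorem filter_eq {m : ℕ} (k : Fin (m + 1)) :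
    (Finset.univ.filter fun i : Fin (m + 1) => (i : ℕ) = (k : ℕ)) = {k} := by
  ext i
  simp [Fin.ext_iff]

end ValCAux

theorem val_key {K : Type*} [Field K] {Γ₀ : Type*} [LinearOrderedCommGroupWithZero Γ₀]
    (v : Valuation K Γ₀) {m : ℕ} {c : Fin m → ℕ} (hc : ∀ j, 1 ≤ c j) {e N : ℕ} (he : 1 ≤ e)
    (y : Fin (m + 1) → K) (h : On c e N y) :
    (∀ i, v (y i / (1 - y i)) = 1) ∨ ∃ i, v (1 + y i / (1 - y i)) < 1 := by
  by_cases hbig : ∃ i, 1 < v (y i)
  · obtain ⟨i, hi⟩ := hbig
    right
    refine ⟨i, ?_⟩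
    have h0 : (1 : K) - y i ≠ 0 := (isUnit_one_sub hc he h i).ne_zero
    have h1 : v (1 - y i) = v (y i) := by
      apply Valuation.map_sub_eq_of_lt_right
      rw [map_one]
      exact hi
    have h2 : 1 + y i / (1 - y i) = (1 - y i)⁻¹ := by
      field_simp
      ring
    rw [h2, map_inv₀, h1]
    exact inv_lt_one_of_one_lt₀ hi
  · left
    have ha : ∀ i, v (y i) ≤ 1 := fun i => not_lt.1 fun hi => hbig ⟨i, hi⟩
    have hb : ∀ i, v (1 - y i) ≤ 1 := by
      intro i
      refine (Valuation.map_sub v 1 (y i)).trans ?_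
      rw [map_one]
      exact max_le le_rfl (ha i)
    have hN : v ((N : ℕ) : K) ≤ 1 := by
      have := P4a177s.v_intCast_le v (N : ℤ)
      rwa [Int.cast_natCast] at this
    have hprodle : ∀ j : Fin m, v (y j.succ * (1 - y j.succ)) ^ c j ≤ 1 := by
      intro j
      rw [map_mul]
      exact pow_le_one' (mul_le_one' (ha _) (hb _)) _
    have h1 : v ((N : ℕ) : K) * (v (y 0) * v (1 - y 0) ^ e *
        ∏ j : Fin m, v (y j.succ * (1 - y j.succ)) ^ c j) = 1 := by
      have h2 := congrArg v h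
      unfold expr at h2
      rw [map_mul, map_mul, map_mul, map_pow, map_prod, map_one] at h2
      simpa only [map_pow] using h2
    have hP : ∏ j : Fin m, v (y j.succ * (1 - y j.succ)) ^ c j ≤ 1 :=
      Finset.prod_le_one' fun j _ => hprodle j
    have h0b : v (1 - y 0) ^ e ≤ 1 := pow_le_one' (hb 0) _
    have h2 := (ValCAux.one_of_mul hN (mul_le_one' (mul_le_one' (ha 0) h0b) hP) h1).2
    have h3 := ValCAux.one_of_mul (mul_le_one' (ha 0) h0b) hP h2
    have h4 := ValCAux.one_of_mul (ha 0) h0b h3.1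
    have h5 : v (1 - y 0) = 1 := (pow_eq_one_iff.1 h4.2).resolve_right (by omega)
    have h6 : ∀ j : Fin m, v (y j.succ * (1 - y j.succ)) ^ c j = 1 := fun j =>
      (Finset.prod_eq_one_iff_of_le_one' fun j _ => hprodle j).1 h3.2 j (Finset.mem_univ j)
    have h7 : ∀ j : Fin m, v (y j.succ) = 1 ∧ v (1 - y j.succ) = 1 := by
      intro j
      have h8 := (pow_eq_one_iff.1 (h6 j)).resolve_right (by have := hc j; omega)
      rw [map_mul] at h8
      exact ValCAux.one_of_mul (ha _) (hb _) h8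
    intro i
    rw [map_div₀]
    refine Fin.cases ?_ (fun j => ?_) i
    · rw [h4.1, h5, div_one]
    · rw [(h7 j).1, (h7 j).2, div_one]

theorem admissible_uu {m : ℕ} {c : Fin m → ℕ} (hc : ∀ j, 1 ≤ c j) {e : ℕ} (N : ℕ) (he : 1 ≤ e) :
    P4a177s.Admissible (symb (uu N hc he)) := by
  refine ⟨uu N hc he, fun i => (i : ℕ), rfl, ?_⟩
  intro K _ φ O
  rcases val_key O.valuation hc he (fun i => φ (coord c e N i)) ((coord_on c e N).map φ) with
    h1 | ⟨k, hk⟩
  · left
    intro i
    rw [map_uu]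
    exact h1 i
  · right
    refine ⟨(k : ℕ), Or.inl ?_⟩
    rw [ValCAux.filter_eq, Finset.sum_singleton, map_uu]
    exact hk

theorem unramified_uu {m : ℕ} {c : Fin m → ℕ} (hc : ∀ j, 1 ≤ c j) {e : ℕ} (N : ℕ) (he : 1 ≤ e) :
    P4a177s.UnramifiedEverywhere (symb (uu N hc he)) := by
  intro K _ _ _ v
  rw [map_symb]
  have hval : ∀ i, ((Units.map (algebraMap (CoordRing c e N) K : CoordRing c e N →* K)
      (uu N hc he i) : Kˣ) : K) =
      algebraMap (CoordRing c e N) K (coord c e N i) /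
        (1 - algebraMap (CoordRing c e N) K (coord c e N i)) := fun i =>
    map_uu (algebraMap (CoordRing c e N) K) hc he i
  rcases val_key v hc he (fun i => algebraMap (CoordRing c e N) K (coord c e N i))
    ((coord_on c e N).map (algebraMap (CoordRing c e N) K)) with h1 | ⟨k, hk⟩
  · apply unramified_symb
    left
    intro i
    rw [hval]
    exact h1 i
  · apply P4a177s.unramified_of_sum v _ {k}
    left
    rw [Finset.sum_singleton, hval]
    exact hk

end P4a177c
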