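import Pool.Agent.Lib.P4a177c.IrrC
import Pool.Agent.Lib.P4a177c.SmoothC
import Pool.Agent.Lib.P4a177c.ValC
import Pool.Agent.Lib.P4a177c.Root1C
import Pool.Agent.Lib.P4a177c.Root2b
import Pool.Agent.Lib.P4a177c.RegC
import Pool.Agent.Lib.P4a177c.LimMainC
import Pool.Agent.Lib.P4a177c.LimErrC
import Pool.Agent.Lib.P4a177c.PosC

/-!
# Assembly
-/

set_option autoImplicit false

namespace P4a177c

open P4a177h P4a177o Function MeasureTheory Filter Topology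
open scoped Real

theorem exists_torus_reg {m : ℕ} (hm : 1 ≤ m) {c : Fin m → ℕ} (hc : ∀ j, 1 ≤ c j) {e N : ℕ}
    (he : 1 ≤ e) {f : ℂ → ℂ} (hf : RootSpec e f) (hN : 1 ≤ N)
    (hNc : N * e ^ e ≠ 4 ^ (∑ j, c j) * (e + 1) ^ (e + 1)) :
    ∃ γ : Torus m (CoordRing c e N), reg γ (symb (uu N hc he)) ≠ 0 := by
  have he0 : (0 : ℝ) < e := by exact_mod_cast he
  have hNcpos : 0 < Nc c e := by
    unfold Nc
    positivity
  have hNpos : (0 : ℝ) < N := by exact_mod_cast hN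
  set V : ℝ := N / Nc c e with hVdef
  have hV : 0 < V := div_pos hNpos hNcpos
  have hVN : V * Nc c e = N := div_mul_cancel₀ _ hNcpos.ne'
  have hV1 : V ≠ 1 := by
    intro h
    apply hNc
    rw [h, one_mul] at hVN
    unfold Nc at hVN
    rw [div_eq_iff (by positivity)] at hVN
    have : ((4 ^ (∑ j, c j) * (e + 1) ^ (e + 1) : ℕ) : ℝ) = ((N * e ^ e : ℕ) : ℝ) := by
      push_cast
      exact hVN
    exact_mod_cast this.symm
  obtain ⟨ε0, hε0, _, hgood⟩ := good_yc c hV hV1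
  have h1 := tendsto_RM hm hc hV hV1 he hf
  have h2 := tendsto_finsetSum (Finset.univ : Finset (Fin m)) fun k _ =>
    tendsto_RE c hV hV1 (e := e) hf k
  have h3 := h1.sub h2
  rw [Finset.sum_const_zero, sub_zero] at h3
  have hneg := integral_neg hm hc hV he hf (integrableOn_LU hm hc hV hV1 he hf)
  have hne : (2 : ℝ) ^ m * ∫ θ in box m, LU f ((y0 c V θ : ℝ) : ℂ) ≠ 0 :=
    mul_ne_zero (by positivity) hneg.ne
  have hev := h3.eventually_ne hne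
  obtain ⟨ε, hr, hε⟩ := (hev.and (Ioo_mem_nhdsGT hε0)).exists
  have hg := hgood ε hε.1 hε.2
  obtain ⟨γ, hγ, hγ0⟩ := exists_torusc he hf hV hVN hε.1 hg
  refine ⟨γ, ?_⟩
  rw [reg_symb, reg_c hc he hf hε.1 hg γ hγ hγ0]
  exact hr

theorem main {m : ℕ} (hm : 1 ≤ m) {c : Fin m → ℕ} (hc : ∀ j, 1 ≤ c j) {e N : ℕ}
    (he : e = 1 ∨ e = 2) (hN : 1 ≤ N)
    (hNc : N * e ^ e ≠ 4 ^ (∑ j, c j) * (e + 1) ^ (e + 1)) :
    GeomIrreducible c e N ∧ Smooth c e N ∧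
    ∃ (ξ : MilnorK (m + 1) (CoordRing c e N)) (γ : Torus m (CoordRing c e N)),
      P4a177s.Admissible ξ ∧ P4a177s.UnramifiedEverywhere ξ ∧ reg γ ξ ≠ 0 := by
  have he1 : 1 ≤ e := by omega
  obtain ⟨f, hf⟩ : ∃ f : ℂ → ℂ, RootSpec e f := by
    rcases he with rfl | rfl
    · exact ⟨rt1, rootSpec_one⟩
    · exact ⟨rt2, rootSpec_two⟩
  obtain ⟨γ, hγ⟩ := exists_torus_reg hm hc he1 hf hN hNc
  exact ⟨geomIrreducible hm hc hN, smooth hc he1 hNc, symb (uu N hc he1), γ,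
    admissible_uu hc N he1, unramified_uu hc N he1, hγ⟩

end P4a177c
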