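import Pool.Agent.Lib.P4a177c.SqC

/-!
# MODULE P4a177c.Root2a: the exponent `e = 2`, the functions `BB` and `qq` (est. 1.3 h)

PROOF. `w = sq y`, `B = BB y = w + i y`, `w^2 + y^2 = 1` (`sq_sq`).
* `BB_mul`: `(w + i y) (w - i y) = w^2 + y^2 = 1`. So `B ≠ 0`, `B⁻¹ = w - i y`, `w = (B + B⁻¹)/2`.
* `BB_cone`: suppose `re B < 0`, `|im B| ≤ |re B|`. `B⁻¹ = conj B / |B|^2`, so with `s = 1/|B|^2 > 0`:
  `re w = re B (1 + s)/2 < 0`, `im w = im B (1 - s)/2`, so `|im w| ≤ |re B| |1 - s|/2 < |re w|`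
  (`|1 - s| < 1 + s`), which contradicts `sq_cone`.
* `BB_slit`: otherwise `re B < 0` (`B ≠ 0`) and `im B = 0`, contradiction to `BB_cone`.
* `abs_arg_BB`: `BB_cone` (if `|arg B| ≥ 3π/4` then `re B < 0` and `|im B| ≤ |re B|`: write
  `re B = |B| cos (arg B)`, `im B = |B| sin (arg B)`).
* `qq_pow`: `q^3 = exp (2 log B) = B^2`. `q ≠ 0`.
* `rt2_eqn`: with `r = q + q⁻¹`: `rt2 = (2 - r)/3`, `1 - rt2 = (1 + r)/3`, and `(2 - r)(1 + r)^2 =
  2 - (r^3 - 3 r) = 2 - q^3 - q^(-3) = 2 - B^2 - B^(-2) = 2 - 2 (w^2 - y^2) = 4 y^2` (`w^2 = 1 - y^2`).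
* `rt2_re`: `q = exp (2/3 log B)`, `re q = |q| cos (2/3 arg B) > 0` as `|2/3 arg B| < π/2`; and
  `re q⁻¹ = re q / |q|^2 > 0`.
* `rt2_contDiffAt`: composition (`sq_contDiffAt`, `BB_slit`, `Complex.contDiffAt_log`
  with `restrict_scalars`, `ContDiffAt.cexp`, `ContDiffAt.inv`).
-/

set_option autoImplicit false

namespace P4a177c

open P4a177h P4a177o Function MeasureTheory
open scoped Real

theorem BB_mul {y : ℂ} (h : Good y) : BB y * (sq y - Complex.I * y) = 1 := by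
  have h1 := sq_sq h
  have h2 := Complex.I_sq
  unfold BB
  linear_combination h1 - y ^ 2 * h2

theorem Root2aAux.ne {y : ℂ} (h : Good y) : BB y ≠ 0 := by
  intro h0
  have h1 := BB_mul h
  rw [h0, zero_mul] at h1
  exact zero_ne_one h1

theorem Root2aAux.inv {y : ℂ} (h : Good y) : sq y - Complex.I * y = (BB y)⁻¹ :=
  eq_inv_of_mul_eq_one_right (BB_mul h)

theorem BB_cone {y : ℂ} (h : Good y) : ¬((BB y).re < 0 ∧ |(BB y).im| ≤ |(BB y).re|) := by
  rintro ⟨h1, h2⟩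
  have hB := Root2aAux.ne h
  have hw : sq y = (BB y + (BB y)⁻¹) / 2 := by
    rw [← Root2aAux.inv h]
    unfold BB
    ring
  have hn : 0 < Complex.normSq (BB y) := Complex.normSq_pos.2 hB
  set s : ℝ := (Complex.normSq (BB y))⁻¹ with hs
  have hs0 : 0 < s := inv_pos.2 hn
  have hre : (sq y).re = (BB y).re * (1 + s) / 2 := by
    rw [hw, Complex.div_ofNat_re, Complex.add_re, Complex.inv_re, div_eq_mul_inv (BB y).re, ← hs]
    ring
  have him : (sq y).im = (BB y).im * (1 - s) / 2 := by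
    rw [hw, Complex.div_ofNat_im, Complex.add_im, Complex.inv_im, div_eq_mul_inv (-(BB y).im),
      ← hs]
    ring
  have hneg : (sq y).re < 0 := by
    rw [hre]
    have : (BB y).re * (1 + s) < 0 := mul_neg_of_neg_of_pos h1 (by linarith)
    linarith
  have h3 := sq_cone h hneg
  have h4 := sq_lt_sq.2 h3
  have h5 := sq_le_sq.2 h2
  rw [hre, him] at h4
  have h6 : 0 < (BB y).re ^ 2 := by
    rw [pow_two]
    exact mul_pos_of_neg_of_neg h1 h1
  have h7 : (BB y).im ^ 2 * (1 - s) ^ 2 ≤ (BB y).re ^ 2 * (1 - s) ^ 2 :=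
    mul_le_mul_of_nonneg_right h5 (sq_nonneg _)
  nlinarith [mul_pos h6 hs0]

theorem BB_slit {y : ℂ} (h : Good y) : BB y ∈ Complex.slitPlane := by
  rw [Complex.mem_slitPlane_iff]
  by_contra hc
  push Not at hc
  have h1 : (BB y).re ≠ 0 := fun h0 => Root2aAux.ne h (Complex.ext h0 hc.2)
  refine BB_cone h ⟨lt_of_le_of_ne hc.1 h1, ?_⟩
  rw [hc.2, abs_zero]
  exact abs_nonneg _

theorem abs_arg_BB {y : ℂ} (h : Good y) : |Complex.arg (BB y)| < 3 * π / 4 := by
  by_contra hc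
  push Not at hc
  have hpi := Real.pi_pos
  have h1 : |Complex.arg (BB y)| ≤ π := Complex.abs_arg_le_pi _
  have hre := Complex.norm_mul_cos_arg (BB y)
  have him := Complex.norm_mul_sin_arg (BB y)
  have hn : 0 < ‖BB y‖ := norm_pos_iff.2 (Root2aAux.ne h)
  have hcos : Real.cos (Complex.arg (BB y)) < 0 := by
    rw [← Real.cos_abs]
    exact Real.cos_neg_of_pi_div_two_lt_of_lt (by linarith) (by linarith)
  have h2 : 0 ≤ Real.cos (2 * Complex.arg (BB y)) := by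
    have h3 : Real.cos (2 * Complex.arg (BB y)) = Real.cos (2 * |Complex.arg (BB y)|) := by
      rw [← Real.cos_abs (2 * Complex.arg (BB y)), abs_mul, abs_of_pos (by norm_num : (0 : ℝ) < 2)]
    rw [h3, ← Real.cos_sub_two_pi]
    exact Real.cos_nonneg_of_mem_Icc ⟨by linarith, by linarith⟩
  rw [Real.cos_two_mul] at h2
  have h4 : Real.sin (Complex.arg (BB y)) ^ 2 ≤ Real.cos (Complex.arg (BB y)) ^ 2 := by
    have := Real.sin_sq_add_cos_sq (Complex.arg (BB y))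
    linarith
  refine BB_cone h ⟨?_, ?_⟩
  · rw [← hre]
    exact mul_neg_of_pos_of_neg hn hcos
  · rw [← hre, ← him, abs_mul, abs_mul]
    exact mul_le_mul_of_nonneg_left (sq_le_sq.1 h4) (abs_nonneg _)

theorem qq_pow {y : ℂ} (h : Good y) : qq y ^ 3 = BB y ^ 2 := by
  have h1 : BB y = Complex.exp (Complex.log (BB y)) := (Complex.exp_log (Root2aAux.ne h)).symm
  have h2 : qq y ^ 3 = Complex.exp (Complex.log (BB y)) ^ 2 := by
    unfold qq
    rw [← Complex.exp_nat_mul, ← Complex.exp_nat_mul]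
    congr 1
    push_cast
    ring
  rw [h2, ← h1]

theorem qq_ne_zero (y : ℂ) : qq y ≠ 0 := Complex.exp_ne_zero _

theorem one_sub_rt2 (y : ℂ) : 1 - rt2 y = (1 + qq y + (qq y)⁻¹) / 3 := by
  unfold rt2
  ring

theorem rt2_eqn {y : ℂ} (h : Good y) : rt2 y * (1 - rt2 y) ^ 2 = y ^ 2 * (4 / 27) := by
  rw [one_sub_rt2]
  unfold rt2
  have h1 := qq_pow h
  have h2 : (qq y)⁻¹ ^ 3 = (sq y - Complex.I * y) ^ 2 := by
    rw [Root2aAux.inv h, inv_pow, inv_pow, h1]
  have h3 : qq y * (qq y)⁻¹ = 1 := mul_inv_cancel₀ (qq_ne_zero y)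
  have h4 := sq_sq h
  have h5 := Complex.I_sq
  have h1' : qq y ^ 3 = (sq y + Complex.I * y) ^ 2 := h1
  generalize (qq y)⁻¹ = p at *
  generalize qq y = q at *
  generalize sq y = w at *
  have e1 : (2 - q - p) * (1 + q + p) ^ 2 = 2 - (q ^ 3 + p ^ 3) + 3 * (q + p) * (1 - q * p) := by
    ring
  have e2 : (2 - q - p) / 3 * ((1 + q + p) / 3) ^ 2 = (2 - q - p) * (1 + q + p) ^ 2 / 27 := by
    ring
  rw [e2, e1, h3, h1', h2]
  linear_combination (-2 / 27 : ℂ) * h4 - (2 / 27 : ℂ) * y ^ 2 * h5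

theorem rt2_re {y : ℂ} (h : Good y) : 1 / 3 ≤ (1 - rt2 y).re := by
  have hpi := Real.pi_pos
  have h1 : 0 < (qq y).re := by
    unfold qq
    rw [Complex.exp_re]
    refine mul_pos (Real.exp_pos _) ?_
    have h2 : (2 / 3 * Complex.log (BB y)).im = 2 / 3 * Complex.arg (BB y) := by
      have e : (2 / 3 * Complex.log (BB y) : ℂ) = ((2 / 3 : ℝ) : ℂ) * Complex.log (BB y) := by
        push_cast
        ring
      rw [e, Complex.im_ofReal_mul, Complex.log_im]
    rw [h2]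
    have h3 := abs_lt.1 (abs_arg_BB h)
    exact Real.cos_pos_of_mem_Ioo ⟨by linarith [h3.1], by linarith [h3.2]⟩
  have h4 : 0 < ((qq y)⁻¹).re := by
    rw [Complex.inv_re]
    exact div_pos h1 (Complex.normSq_pos.2 (qq_ne_zero y))
  rw [one_sub_rt2, Complex.div_ofNat_re, Complex.add_re, Complex.add_re, Complex.one_re]
  linarith

theorem rt2_contDiffAt {y : ℂ} (h : Good y) : ContDiffAt ℝ 2 rt2 y := by
  have h1 : ContDiffAt ℝ 2 BB y :=
    (sq_contDiffAt h).add (contDiffAt_const.mul contDiffAt_id)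
  have h2 : ContDiffAt ℝ 2 (fun x : ℂ => Complex.log (BB x)) y :=
    ContDiffAt.comp y (g := Complex.log) ((Complex.contDiffAt_log (BB_slit h)).restrict_scalars ℝ)
      h1
  have h3 : ContDiffAt ℝ 2 qq y := (contDiffAt_const.mul h2).cexp
  exact ((contDiffAt_const.sub h3).sub (h3.inv (qq_ne_zero y))).div_const 3

end P4a177c
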