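import Pool.Agent.Lib.P4a177c.Ana
import Pool.Agent.Lib.P4a177o.RootAO

/-!
# MODULE P4a177c.SqC: the square root of `1 - y^2` (est. 1.2 h; adapt `Lib/P4a177o/RootAO.lean`,
# `RootBO.lean`)

PROOF. `sq y = exp (w / 2)`, `w = log (z (1 + i)) - log (1 + i)`, `z = 1 - y^2`; this is `P4a177o.srt`
with `1 + 4/c^2` replaced by `z` (choose `c` with `c^2 = -4 / y^2` to get `sq y = srt c`,
`Goodo c`, by `rfl` after `rw`, or copy the proofs).
* `sq_sq`, `sq_polar`: as `P4a177o.srt_sq`, `P4a177o.RootAO_polar`. `sq_ne_zero`: `Complex.exp_ne_zero`.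
* `sq_cone`: `sq_polar`: `cos β < 0` and `β ∈ (-5π/8, 3π/8)` give `β ∈ (-5π/8, -π/2)`, where
  `cos β ≥ -cos (3π/8)`... `|cos β| < |sin β|` as `β ∈ (-3π/4, -π/2)`.
* `one_add_sq_slit`, `norm_one_add_sq`: as `P4a177o.one_add_srt_slit`, `P4a177o.norm_one_add_srt`.
* `sq_contDiffAt`: as `P4a177o.RootAO_srt_contDiffAt` (`restrict_scalars`).
* `good_real`: `(1 - t^2) (1 + i)` has the imaginary part `1 - t^2 ≠ 0`.
* `sq_real_lt`: `log ((1 - t^2) (1 + i)) - log (1 + i) = log (1 - t^2)` (`Complex.log_ofReal_mul`).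
* `sq_real_gt`: `p = 1 - t^2 < 0`, `p (1 + i) = |p| (-1 - i)`, `arg (-1 - i) = -3π/4`, see
  `srt_neg` in `Lib/P4a177o/RootBO.lean`.
-/

set_option autoImplicit false

namespace P4a177c

open P4a177h P4a177o Function MeasureTheory
open scoped Real

theorem SqCAux.ee (t : ℝ) : (1 - (t : ℂ) ^ 2 : ℂ) = ((1 - t ^ 2 : ℝ) : ℂ) := by
  push_cast
  ring

theorem sq_sq {y : ℂ} (h : Good y) : sq y ^ 2 = 1 - y ^ 2 := by
  rw [sq, pow_two, ← Complex.exp_add, add_halves, Complex.exp_sub,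
    Complex.exp_log (Complex.slitPlane_ne_zero h.2), Complex.exp_log RootAO_one_add_I_ne,
    mul_div_assoc, div_self RootAO_one_add_I_ne, mul_one]

theorem sq_ne_zero (y : ℂ) : sq y ≠ 0 := Complex.exp_ne_zero _

theorem sq_polar {y : ℂ} (h : Good y) : ∃ ρ β : ℝ, 0 < ρ ∧ -(5 * π / 8) < β ∧ β < 3 * π / 8 ∧
    (sq y).re = ρ * Real.cos β ∧ (sq y).im = ρ * Real.sin β := by
  refine ⟨_, _, Real.exp_pos _, ?_, ?_, Complex.exp_re _, Complex.exp_im _⟩
  · rw [Complex.div_ofNat_im, Complex.sub_im, Complex.log_im, Complex.log_im, arg_one_add_I]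
    have h3 := Complex.neg_pi_lt_arg ((1 - y ^ 2) * (1 + Complex.I))
    linarith
  · rw [Complex.div_ofNat_im, Complex.sub_im, Complex.log_im, Complex.log_im, arg_one_add_I]
    have h2 := (Complex.mem_slitPlane_iff_arg.1 h.2).1
    have h4 := lt_of_le_of_ne (Complex.arg_le_pi ((1 - y ^ 2) * (1 + Complex.I))) h2
    linarith

theorem sq_cone {y : ℂ} (h : Good y) (hre : (sq y).re < 0) : |(sq y).re| < |(sq y).im| := by
  obtain ⟨ρ, β, hρ, hβ1, hβ2, h1, h2⟩ := sq_polar h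
  have hpi := Real.pi_pos
  have hcos : Real.cos β < 0 := by
    rw [h1] at hre
    by_contra h3
    push Not at h3
    have := mul_nonneg hρ.le h3
    linarith
  have hβ3 : β < -(π / 2) := by
    by_contra h3
    push Not at h3
    have := Real.cos_nonneg_of_mem_Icc (x := β) ⟨by linarith, by linarith⟩
    linarith
  -- `β + π ∈ (3π/8, π/2)`
  have h3 : Real.cos (2 * β) < 0 := by
    have h4 : Real.cos (2 * β) = -Real.cos (2 * β + π) := by
      rw [Real.cos_add_pi, neg_neg]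
    rw [h4, neg_lt_zero]
    exact Real.cos_pos_of_mem_Ioo ⟨by linarith, by linarith⟩
  rw [Real.cos_two_mul] at h3
  have h5 : Real.cos β ^ 2 < Real.sin β ^ 2 := by
    have := Real.sin_sq_add_cos_sq β
    nlinarith
  have h6 := sq_lt_sq.1 h5
  rw [h1, h2, abs_mul, abs_mul]
  exact mul_lt_mul_of_pos_left h6 (abs_pos.2 hρ.ne')

theorem one_add_sq_slit {y : ℂ} (h : Good y) : (1 + sq y) / 2 ∈ Complex.slitPlane := by
  obtain ⟨ρ, β, hρ, hβ1, hβ2, hre, him⟩ := sq_polar h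
  rw [Complex.mem_slitPlane_iff, Complex.div_ofNat_re, Complex.div_ofNat_im, Complex.add_re,
    Complex.add_im, Complex.one_re, Complex.one_im, zero_add]
  by_cases h0 : (sq y).im = 0
  · left
    rw [him] at h0
    have h1 : Real.sin β = 0 := (mul_eq_zero.1 h0).resolve_left hρ.ne'
    have h2 : β = 0 := (Real.sin_eq_zero_iff_of_lt_of_lt (by linarith [Real.pi_pos])
      (by linarith [Real.pi_pos])).1 h1
    rw [hre, h2, Real.cos_zero]
    linarith
  · right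
    intro h1
    apply h0
    linarith

theorem norm_one_add_sq {y : ℂ} (h : Good y) : 1 / 2 ≤ ‖1 + sq y‖ := by
  obtain ⟨ρ, β, hρ, hβ1, hβ2, hre, him⟩ := sq_polar h
  have hcos : -(√2 / 2) ≤ Real.cos β := by
    have h1 : Real.cos (3 * π / 4) = -(√2 / 2) := by
      rw [show 3 * π / 4 = π - π / 4 by ring, Real.cos_pi_sub, Real.cos_pi_div_four]
    rw [← h1, ← Real.cos_abs β]
    apply Real.cos_le_cos_of_nonneg_of_le_pi (abs_nonneg _) (by linarith [Real.pi_pos])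
    rw [abs_le]
    constructor <;> linarith [Real.pi_pos]
  have h2 : √2 * √2 = 2 := Real.mul_self_sqrt (by norm_num)
  have h3 : ‖1 + sq y‖ ^ 2 = 1 + 2 * ρ * Real.cos β + ρ ^ 2 := by
    rw [← Complex.normSq_eq_norm_sq, Complex.normSq_apply, Complex.add_re, Complex.add_im,
      Complex.one_re, Complex.one_im, hre, him]
    nlinarith [Real.sin_sq_add_cos_sq β]
  have h4 : (1 / 2) ^ 2 ≤ ‖1 + sq y‖ ^ 2 := by
    rw [h3]
    nlinarith [sq_nonneg (ρ - √2 / 2), mul_le_mul_of_nonneg_left hcos hρ.le]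
  exact (pow_le_pow_iff_left₀ (by norm_num) (norm_nonneg _) two_ne_zero).1 h4

theorem sq_contDiffAt {y : ℂ} (h : Good y) : ContDiffAt ℝ 2 sq y := by
  have h0 : ContDiffAt ℂ 2 (fun x : ℂ => 1 - x ^ 2) y :=
    contDiffAt_const.sub (contDiffAt_id.pow 2)
  have h1 : ContDiffAt ℂ 2 (fun x : ℂ => (1 - x ^ 2) * (1 + Complex.I)) y :=
    h0.mul contDiffAt_const
  have h2 : ContDiffAt ℂ 2 (fun x : ℂ => Complex.log ((1 - x ^ 2) * (1 + Complex.I))) y :=
    ContDiffAt.comp y (g := Complex.log) (Complex.contDiffAt_log h.2) h1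
  have h3 : ContDiffAt ℂ 2 sq y := ((h2.sub contDiffAt_const).div_const 2).cexp
  exact h3.restrict_scalars ℝ

theorem good_real {t : ℝ} (h0 : t ≠ 0) (h1 : t ^ 2 ≠ 1) : Good (t : ℂ) := by
  refine ⟨by exact_mod_cast h0, ?_⟩
  rw [SqCAux.ee, Complex.mem_slitPlane_iff]
  right
  have h2 : (1 : ℝ) - t ^ 2 ≠ 0 := fun h => h1 (by linarith)
  intro h3
  apply h2
  have h4 : (((1 - t ^ 2 : ℝ) : ℂ) * (1 + Complex.I)).im = 1 - t ^ 2 := by
    rw [Complex.im_ofReal_mul]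
    simp
  rw [h4] at h3
  exact h3

theorem sq_real_lt {t : ℝ} (h1 : t ^ 2 < 1) : sq (t : ℂ) = ((√(1 - t ^ 2) : ℝ) : ℂ) := by
  have hp : (0 : ℝ) < 1 - t ^ 2 := by linarith
  rw [sq, SqCAux.ee, Complex.log_ofReal_mul hp RootAO_one_add_I_ne, add_sub_cancel_right]
  rw [show ((Real.log (1 - t ^ 2) : ℝ) : ℂ) / 2 = ((Real.log (1 - t ^ 2) / 2 : ℝ) : ℂ) by
    push_cast; ring, ← Complex.ofReal_exp, Real.exp_half, Real.exp_log hp]

theorem sq_real_gt {t : ℝ} (h1 : 1 < t ^ 2) :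
    sq (t : ℂ) = -((√(t ^ 2 - 1) : ℝ) : ℂ) * Complex.I := by
  have hq : (0 : ℝ) < t ^ 2 - 1 := by linarith
  have h3 : -(1 + Complex.I) ≠ 0 := neg_ne_zero.2 RootAO_one_add_I_ne
  have h2 : Complex.log (-(1 + Complex.I)) = Complex.log (1 + Complex.I) - π * Complex.I := by
    rw [Complex.log, Complex.log, norm_neg, Complex.arg_neg_eq_arg_sub_pi_of_im_pos (by simp)]
    push_cast
    ring
  rw [sq, SqCAux.ee, show ((1 - t ^ 2 : ℝ) : ℂ) * (1 + Complex.I) =
      ((t ^ 2 - 1 : ℝ) : ℂ) * (-(1 + Complex.I)) by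
    push_cast; ring, Complex.log_ofReal_mul hq h3, h2]
  rw [show (((Real.log (t ^ 2 - 1) : ℝ) : ℂ) + (Complex.log (1 + Complex.I) - π * Complex.I) -
      Complex.log (1 + Complex.I)) / 2 = ((Real.log (t ^ 2 - 1) / 2 : ℝ) : ℂ) +
        -(π / 2 * Complex.I) by
    push_cast; ring, Complex.exp_add, ← Complex.ofReal_exp, Real.exp_half, Real.exp_log hq,
    Complex.exp_neg, Complex.exp_pi_div_two_mul_I]
  simp

end P4a177c
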