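import Pool.Agent.Lib.P4a177c.Defs

/-!
# The ring structure of the coordinate ring, and the regulator of an element along a torus
-/

set_option autoImplicit false

namespace P4a177c

open P4a177h

noncomputable section

/-- The ring structure of the coordinate ring. -/
instance instCoordRing {m : ℕ} (c : Fin m → ℕ) (e N : ℕ) : CommRing (CoordRing c e N) :=
  Ideal.Quotient.commRing (Ideal.span {eqn c e N})

/-- The regulator of the element `ξ` of the Milnor K-group `K_(m+1)` of a ring along the torus `γ`
of dimension `m`. -/
def regulator {m : ℕ} {R : Type} [CommRing R] (ξ : MilnorK (m + 1) R) (γ : Torus m R) : ℝ :=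
  reg γ ξ

end

end P4a177c
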