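import Pool.Agent.Lib.P4a177t.Main
import Pool.Agent.Lib.P4a177o.Main

/-!
# Two elements in all dimensions

The theorem of `P4a177t` (even dimension) with the invariance of the two elements added, and its
union with the theorem of `P4a177o` (odd dimension).
-/

set_option autoImplicit false

namespace P4a177c

open P4a177h P4a177t P4a177o Function MeasureTheory Filter Topology
open scoped Real

noncomputable section

variable {m : ℕ}

theorem main_even (hm : Even m) (hm2 : 2 ≤ m) {u : ℤ} (hdvd : u ∣ 4 ^ (m + 1)) :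
    GeomIrreducible m u ∧ Smooth m u ∧ (m = 2 → SmoothClosure m u) ∧
    ∃ (ξ : Fin 2 → MilnorK (m + 1) (CoordRing m u)) (γ : Fin 2 → Torus m (CoordRing m u)),
      (∀ p, P4a177s.Admissible (ξ p) ∧ P4a177s.UnramifiedEverywhere (ξ p) ∧ Invariant (ξ p)) ∧
      (P4a177s.regulatorMatrix ξ γ).det ≠ 0 := by
  obtain ⟨k, hk⟩ := hdvd
  have h4 : (4 : ℤ) ^ (m + 1) ≠ 0 := pow_ne_zero _ (by norm_num)
  have hu : u ≠ 0 := by
    rintro rfl
    rw [zero_mul] at hk
    exact h4 hk
  have hk0 : k ≠ 0 := by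
    rintro rfl
    rw [mul_zero] at hk
    exact h4 hk
  refine ⟨geomIrreducible hm2 hu, smooth hm hu, ?_, ?_⟩
  · rintro rfl
    exact smoothClosure_two hu
  -- the parameter of the isomorphic hypersurface
  obtain ⟨u', hu', huu⟩ : ∃ u' : ℤ, u' ≠ 0 ∧ u * u' = (-4) ^ (m + 1) := by
    refine ⟨-k, neg_ne_zero.2 hk0, ?_⟩
    rw [(hm.add_one).neg_pow, hk]
    ring
  have huu' : u' * u = (-4) ^ (m + 1) := by rw [mul_comm]; exact huu
  have hm1 : 1 ≤ m := by omega
  set v : ℝ := |(u : ℝ)| / 2 ^ (m + 1) with hv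
  set v' : ℝ := |(u' : ℝ)| / 2 ^ (m + 1) with hv'
  have huR : (u : ℝ) ≠ 0 := by exact_mod_cast hu
  have hv0 : 0 < v := by
    rw [hv]
    have := abs_pos.2 huR
    positivity
  have hvv : v' = v⁻¹ := by
    have h1 : |(u : ℝ)| * |(u' : ℝ)| = 4 ^ (m + 1) := by
      rw [← abs_mul]
      have := congrArg (Int.cast : ℤ → ℝ) huu
      push_cast at this
      rw [this, abs_pow]
      norm_num
    have h2 : v * v' = 1 := by
      rw [hv, hv', div_mul_div_comm, h1, ← mul_pow]
      norm_num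
    exact eq_inv_of_mul_eq_one_right h2
  -- the limit of the determinants
  have hdet : MM m v * MM m v' + (-(|(u : ℝ)| / u) * NN m v) * (-(|(u' : ℝ)| / u') * NN m v') ≠ 0 := by
    have h1 := det_pos hm1 hv0
    have h2 := abs_div_mul hm huu
    rw [← hvv] at h1
    have h3 : MM m v * MM m v' + (-(|(u : ℝ)| / u) * NN m v) * (-(|(u' : ℝ)| / u') * NN m v') =
        MM m v * MM m v' - NN m v * NN m v' := by
      linear_combination (NN m v * NN m v') * h2
    rw [h3]
    exact (sub_pos.2 h1).ne'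
  obtain ⟨r0, hr00, hr01, hr0⟩ := good_cc (m := m) hm hu
  obtain ⟨r1, hr10, hr11, hr1⟩ := good_cc (m := m) hm hu'
  have hlim := ((lim_x hm hm1 hu).mul (lim_x hm hm1 hu')).add
    ((tendsto_LL hm hm1 hu).mul (tendsto_LL hm hm1 hu'))
  have hev := hlim.eventually_ne hdet
  have hmem : Set.Ioo (max r0 r1) 1 ∈ 𝓝[<] (1 : ℝ) := Ioo_mem_nhdsLT (max_lt hr01 hr11)
  obtain ⟨r, hr, hrI⟩ := (hev.and hmem).exists
  have hra : r0 < r := (le_max_left _ _).trans_lt hrI.1
  have hrb : r1 < r := (le_max_right _ _).trans_lt hrI.1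
  have hr0' : 0 < r := hr00.trans hra
  have hr1' : r < 1 := hrI.2
  obtain ⟨γ, hγ, hγ0⟩ := exists_torus (m := m) (u := u) hr0' hr1' (hr0 r hra hr1')
  obtain ⟨γ', hγ', hγ0'⟩ := exists_torus (m := m) (u := u') hr0' hr1' (hr1 r hrb hr1')
  have e1 := reg_x hu hr0' hr1' (hr0 r hra hr1') γ hγ hγ0
  have e2 := reg_w hu hr0' hr1' (hr0 r hra hr1') γ hγ hγ0
  have e3 := reg_x hu' hr0' hr1' (hr1 r hrb hr1') γ' hγ' hγ0'
  have e4 := reg_w hu' hr0' hr1' (hr1 r hrb hr1') γ' hγ' hγ0'
  rw [← e1, ← e2, ← e3, ← e4] at hr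
  -- the morphism from the hypersurface `u'` to the hypersurface `u`
  set φ : CoordRing m u →+* CoordRing m u' := swap hu' huu' with hφ
  refine ⟨![symb fun i => -(x m u i) ^ 2, symb fun i => -(w m hu i) ^ 2], ![γ, comap φ γ'], ?_, ?_⟩
  · intro p
    fin_cases p
    · exact ⟨admissible_sq _ (x_on m u), unramified_sq _ (x_on m u), inv_x⟩
    · exact ⟨admissible_sq _ (mob_on hu huu _ _), unramified_sq _ (mob_on hu huu _ _), inv_w hu⟩
  · have f1 : reg γ (symb fun i => -(x m u i) ^ 2) = 2 ^ (m + 1) * regFun γ (x m u) := by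
      rw [reg_symb, regFun_neg_sq]
    have f2 : reg γ (symb fun i => -(w m hu i) ^ 2) = 2 ^ (m + 1) * regFun γ (w m hu) := by
      rw [reg_symb, regFun_neg_sq]
    have hodd : Odd (m + 1) := hm.add_one
    have g1 : regFun (comap φ γ') (x m u) = regFun γ' (w m hu') := by
      have h := regFun_scale (comap φ γ') γ' (x m u) (w m hu') 1 (fun k θ => ?_) (fun k θ l => ?_)
      · rwa [one_pow, one_mul] at h
      · rw [one_mul]
        show Real.log ‖γ'.emb θ (φ (x m u k : CoordRing m u))‖ = _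
        rw [hφ, swap_x]
      · rw [Complex.ofReal_one, one_mul]
        show -Complex.I * (fderiv ℝ (fun θ => γ'.emb θ (φ (x m u k : CoordRing m u))) θ
          (Pi.single l 1) / γ'.emb θ (φ (x m u k : CoordRing m u))) = _
        rw [hφ, swap_x]
        rfl
    have g2 : regFun (comap φ γ') (w m hu) = -regFun γ' (x m u') := by
      have hw : ∀ k, φ (w m hu k : CoordRing m u) = ((-(x m u' k)⁻¹ : (CoordRing m u')ˣ) :
          CoordRing m u') := fun k => by
        rw [← (Units.isUnit (x m u' k)).mul_left_inj, swap_w (m := m) hu' hu huu' k,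
          Units.val_neg, neg_mul, Units.inv_mul]
      have h := regFun_scale (comap φ γ') γ' (w m hu) (x m u') (-1) (fun k θ => ?_)
        (fun k θ l => ?_)
      · rw [h, hodd.neg_one_pow]
        ring
      · show Real.log ‖γ'.emb θ (φ (w m hu k : CoordRing m u))‖ = _
        rw [hw k, Units.val_neg, map_neg, norm_neg]
        have hne : γ'.emb θ (x m u' k : CoordRing m u') ≠ 0 := emb_ne_zero γ' _ θ
        have h3 : γ'.emb θ (((x m u' k)⁻¹ : (CoordRing m u')ˣ) : CoordRing m u') =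
            (γ'.emb θ (x m u' k : CoordRing m u'))⁻¹ := by
          refine eq_inv_of_mul_eq_one_left ?_
          rw [← map_mul, Units.inv_mul, map_one]
        rw [h3, norm_inv, Real.log_inv]
        ring
      · have h4 : dlogRow (comap φ γ') (w m hu k) θ = dlogRow γ' (-(x m u' k)⁻¹) θ := by
          funext l
          show -Complex.I * (fderiv ℝ (fun θ => γ'.emb θ (φ (w m hu k : CoordRing m u))) θ
            (Pi.single l 1) / γ'.emb θ (φ (w m hu k : CoordRing m u))) = _
          rw [hw k]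
          rfl
        rw [h4, dlogRow_neg, dlogRow_inv']
        simp
    have f3 : reg (comap φ γ') (symb fun i => -(x m u i) ^ 2) =
        2 ^ (m + 1) * regFun γ' (w m hu') := by
      rw [reg_symb, regFun_neg_sq, g1]
    have f4 : reg (comap φ γ') (symb fun i => -(w m hu i) ^ 2) =
        -(2 ^ (m + 1) * regFun γ' (x m u')) := by
      rw [reg_symb, regFun_neg_sq, g2]
      ring
    rw [Matrix.det_fin_two]
    simp only [P4a177s.regulatorMatrix, Matrix.of_apply, Matrix.cons_val_zero, Matrix.cons_val_one]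
    rw [f1, f2, f3, f4]
    intro h0
    apply hr
    have h2 : (2 : ℝ) ^ (m + 1) * 2 ^ (m + 1) ≠ 0 := by positivity
    have h3 : (2 : ℝ) ^ (m + 1) * 2 ^ (m + 1) * (regFun γ (x m u) * regFun γ' (x m u') +
        regFun γ (w m hu) * regFun γ' (w m hu')) = 0 := by
      linear_combination -h0
    exact (mul_eq_zero.1 h3).resolve_left h2

theorem two_elements (hm : 2 ≤ m) {u : ℤ} (hu : u ∣ 4 ^ (m + 1))
    (hu2 : Odd m → |u| ≠ 2 ^ (m + 1)) :
    GeomIrreducible m u ∧ Smooth m u ∧ (m = 2 → SmoothClosure m u) ∧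
    ∃ (ξ : Fin 2 → MilnorK (m + 1) (CoordRing m u)) (γ : Fin 2 → Torus m (CoordRing m u)),
      (∀ p, P4a177s.Admissible (ξ p) ∧ P4a177s.UnramifiedEverywhere (ξ p) ∧ Invariant (ξ p)) ∧
      (P4a177s.regulatorMatrix ξ γ).det ≠ 0 := by
  rcases Nat.even_or_odd m with hev | hodd
  · exact main_even hev hm hu
  · have hm3 : 3 ≤ m := by
      obtain ⟨k, hk⟩ := hodd
      omega
    obtain ⟨h1, h2, h3⟩ := P4a177o.main hodd hm3 hu (hu2 hodd)
    exact ⟨h1, h2, fun h => absurd h (by omega), h3⟩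

end

end P4a177c
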